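import Mathlib

/-!
# Averages over a finite type, and over a cube with some coordinates fixed
-/

set_option autoImplicit false

namespace Pool.Agent.PS

open Finset

/-- The average of a function over a finite type. -/
noncomputable def av {X : Type*} [Fintype X] (F : X → ℝ) : ℝ := (∑ x, F x) / Fintype.card X

section Basic

variable {X Y : Type*} [Fintype X] [Fintype Y]

lemma av_const [Nonempty X] (c : ℝ) : av (fun _ : X => c) = c := by
  have h : (Fintype.card X : ℝ) ≠ 0 := by
    have : 0 < Fintype.card X := Fintype.card_pos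
    positivity
  simp only [av, Finset.sum_const, Finset.card_univ, nsmul_eq_mul]
  field_simp

lemma av_zero : av (fun _ : X => (0 : ℝ)) = 0 := by simp [av]

lemma av_add (F G : X → ℝ) : av (fun x => F x + G x) = av F + av G := by
  simp only [av, Finset.sum_add_distrib, add_div]

lemma av_sub (F G : X → ℝ) : av (fun x => F x - G x) = av F - av G := by
  simp only [av, Finset.sum_sub_distrib, sub_div]

lemma av_mul_left (c : ℝ) (F : X → ℝ) : av (fun x => c * F x) = c * av F := by
  simp only [av, ← Finset.mul_sum, mul_div_assoc]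

lemma av_mul_right (c : ℝ) (F : X → ℝ) : av (fun x => F x * c) = av F * c := by
  simp only [av, ← Finset.sum_mul]
  ring

lemma av_le {F G : X → ℝ} (h : ∀ x, F x ≤ G x) : av F ≤ av G :=
  div_le_div_of_nonneg_right (Finset.sum_le_sum fun x _ => h x) (Nat.cast_nonneg _)

lemma av_nonneg {F : X → ℝ} (h : ∀ x, 0 ≤ F x) : 0 ≤ av F :=
  div_nonneg (Finset.sum_nonneg fun x _ => h x) (Nat.cast_nonneg _)

lemma av_sum {ι : Type*} (s : Finset ι) (F : ι → X → ℝ) :
    av (fun x => ∑ i ∈ s, F i x) = ∑ i ∈ s, av (F i) := by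
  simp only [av, ← Finset.sum_div]
  rw [Finset.sum_comm]

lemma av_abs_le (F : X → ℝ) : |av F| ≤ av (fun x => |F x|) := by
  simp only [av, abs_div, Nat.abs_cast]
  exact div_le_div_of_nonneg_right (Finset.abs_sum_le_sum_abs _ _) (Nat.cast_nonneg _)

lemma av_comp_invol (t : X → X) (ht : Function.Involutive t) (F : X → ℝ) :
    av (fun x => F (t x)) = av F := by
  simp only [av]
  congr 1
  exact Equiv.sum_comp (ht.toPerm t) F

/-- Resampling one coordinate. -/
lemma av_update {ι : Type*} [Fintype ι] [DecidableEq ι] {Z : Type*} [Fintype Z] [Nonempty Z]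
    (j : ι) (F : (ι → Z) → ℝ) :
    av F = av (fun x : ι → Z => av (fun z : Z => F (Function.update x j z))) := by
  have hinv : Function.Involutive
      (fun p : (ι → Z) × Z => (Function.update p.1 j p.2, p.1 j)) := by
    rintro ⟨x, a⟩
    simp
  have h1 : ∑ p : (ι → Z) × Z, F (Function.update p.1 j p.2) = ∑ p : (ι → Z) × Z, F p.1 :=
    Equiv.sum_comp (hinv.toPerm _) (fun p => F p.1)
  have h2 : ∑ x : ι → Z, ∑ z : Z, F (Function.update x j z) =
      (Fintype.card Z : ℝ) * ∑ x, F x := by
    rw [← Finset.sum_product', Finset.univ_product_univ]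
    refine h1.trans ?_
    rw [← Finset.univ_product_univ, Finset.sum_product]
    simp only [Finset.sum_const, nsmul_eq_mul, Finset.card_univ]
    rw [← Finset.mul_sum]
  have hZ : (Fintype.card Z : ℝ) ≠ 0 := by
    have : 0 < Fintype.card Z := Fintype.card_pos
    positivity
  simp only [av, ← Finset.sum_div]
  rw [h2]
  field_simp

lemma av_comm (F : X → Y → ℝ) :
    av (fun x => av (fun y => F x y)) = av (fun y => av (fun x => F x y)) := by
  simp only [av, ← Finset.sum_div]
  rw [Finset.sum_comm, div_div, div_div, mul_comm]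

end Basic

section Cube

variable {κ : Type*} [Fintype κ] [DecidableEq κ]

/-- A product of functions of the coordinates. -/
lemma av_prod (φ : κ → Bool → ℝ) :
    av (fun z : κ → Bool => ∏ b, φ b (z b)) = ∏ b, ((φ b true + φ b false) / 2) := by
  have h1 : ∑ z : κ → Bool, ∏ b, φ b (z b) = ∏ b, ∑ c : Bool, φ b c := by
    rw [Finset.prod_univ_sum, Fintype.piFinset_univ]
  simp only [av]
  rw [h1, Finset.prod_div_distrib]
  simp only [Fintype.sum_bool, Finset.prod_const, Finset.card_univ, Fintype.card_fun,
    Fintype.card_bool, Nat.cast_pow, Nat.cast_ofNat]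

/-- The sign of a hat: `1` for black, `-1` for white. -/
noncomputable def sg (b : Bool) : ℝ := if b then 1 else -1

lemma sg_true : sg true = 1 := rfl

lemma sg_not (b : Bool) : sg (!b) = - sg b := by
  cases b <;> simp [sg]

lemma sg_sq (b : Bool) : sg b ^ 2 = 1 := by
  cases b <;> simp [sg]

lemma abs_sg (b : Bool) : |sg b| = 1 := by
  cases b <;> simp [sg]

/-- One factor of the density `D`. -/
noncomputable def dw (H : Finset κ) (b : κ) (c : Bool) : ℝ :=
  if b ∈ H then (if c then 0 else 2) else 1

/-- The density of the uniform measure on the stacks that are white on `H`. -/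
noncomputable def D (H : Finset κ) (z : κ → Bool) : ℝ := ∏ b, dw H b (z b)

omit [Fintype κ] in
lemma dw_nonneg (H : Finset κ) (b : κ) (c : Bool) : 0 ≤ dw H b c := by
  unfold dw; split_ifs <;> norm_num

lemma D_nonneg (H : Finset κ) (z : κ → Bool) : 0 ≤ D H z :=
  Finset.prod_nonneg fun b _ => dw_nonneg H b _

lemma D_zero (H : Finset κ) (z : κ → Bool) (b : κ) (hb : b ∈ H) (hz : z b = true) :
    D H z = 0 := by
  unfold D
  refine Finset.prod_eq_zero (Finset.mem_univ b) ?_
  simp [dw, hb, hz]

lemma av_D (H : Finset κ) : av (D H) = 1 := by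
  have h := av_prod (dw H)
  refine h.trans ?_
  refine Finset.prod_eq_one fun b _ => ?_
  unfold dw
  split_ifs <;> simp_all

lemma av_D_sq (H : Finset κ) : av (fun z => D H z ^ 2) = 2 ^ H.card := by
  have h := av_prod (fun b c => dw H b c ^ 2)
  have e : (fun z : κ → Bool => D H z ^ 2) = fun z => ∏ b, dw H b (z b) ^ 2 := by
    funext z
    unfold D
    rw [Finset.prod_pow]
  rw [e, h]
  have h1 : ∀ b : κ, (dw H b true ^ 2 + dw H b false ^ 2) / 2 = if b ∈ H then (2 : ℝ) else 1 := by
    intro b
    unfold dw
    split_ifs <;> simp_all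
    norm_num
  simp only [h1]
  rw [Finset.prod_ite_mem, Finset.univ_inter, Finset.prod_const]

lemma av_D_sg (H : Finset κ) (b : κ) (hb : b ∉ H) : av (fun z => D H z * sg (z b)) = 0 := by
  have h := av_prod (fun a c => dw H a c * (if a = b then sg c else 1))
  have e : (fun z : κ → Bool => D H z * sg (z b)) =
      fun z => ∏ a, dw H a (z a) * (if a = b then sg (z a) else 1) := by
    funext z
    unfold D
    rw [Finset.prod_mul_distrib, Finset.prod_ite_eq' Finset.univ b]
    simp
  rw [e, h]
  refine Finset.prod_eq_zero (Finset.mem_univ b) ?_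
  simp [dw, hb, sg]

lemma av_D_sg_sg (H : Finset κ) (b b' : κ) (hb : b ∉ H) (hbb : b ≠ b') :
    av (fun z => D H z * (sg (z b) * sg (z b'))) = 0 := by
  have h := av_prod (fun a c => dw H a c * ((if a = b then sg c else 1) *
    (if a = b' then sg c else 1)))
  have e : (fun z : κ → Bool => D H z * (sg (z b) * sg (z b'))) =
      fun z => ∏ a, dw H a (z a) * ((if a = b then sg (z a) else 1) *
        (if a = b' then sg (z a) else 1)) := by
    funext z
    unfold D
    rw [Finset.prod_mul_distrib, Finset.prod_mul_distrib, Finset.prod_ite_eq' Finset.univ b,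
      Finset.prod_ite_eq' Finset.univ b']
    simp
  rw [e, h]
  refine Finset.prod_eq_zero (Finset.mem_univ b) ?_
  simp [dw, hb, sg, hbb]

lemma av_D_exp (H : Finset κ) (θ : κ → ℝ) (hθ : ∀ b ∈ H, θ b = 0) :
    av (fun z => D H z * Real.exp (∑ b, θ b * sg (z b))) ≤ Real.exp ((∑ b, θ b ^ 2) / 2) := by
  have h := av_prod (fun b c => dw H b c * Real.exp (θ b * sg c))
  have e : (fun z : κ → Bool => D H z * Real.exp (∑ b, θ b * sg (z b))) =
      fun z => ∏ b, dw H b (z b) * Real.exp (θ b * sg (z b)) := by
    funext z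
    unfold D
    rw [Finset.prod_mul_distrib, Real.exp_sum]
  rw [e, h, Finset.sum_div, Real.exp_sum]
  refine Finset.prod_le_prod (fun b _ => ?_) fun b _ => ?_
  · have h1 := dw_nonneg H b true
    have h2 := dw_nonneg H b false
    positivity
  · by_cases hb : b ∈ H
    · rw [hθ b hb]
      simp [dw, hb]
    · have h1 := Real.cosh_le_exp_half_sq (θ b)
      rw [Real.cosh_eq] at h1
      simp only [dw, hb, if_false, sg, if_true, one_mul, mul_one]
      simpa using h1

end Cube

end Pool.Agent.PS
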