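import Pool.Agent.Lib_MP_d91c53_ps.Level

/-!
# The group bound

Second moment of the average of the named hats, every stack being conditioned to be white at
the hats which its player names often.
-/

set_option autoImplicit false

namespace Pool.Agent.PS

open Finset

variable {κ : Type*} [Fintype κ] [DecidableEq κ]

lemma D_mul_M (H : Finset κ) (b : κ) (z : κ → Bool) (hz : z b = true) :
    D H z * M H b z = D H z := by
  unfold M
  split_ifs with hb
  · rw [D_zero H z b hb hz, mul_zero]
  · rw [hz, sg_true, mul_one]

lemma av_D_M (H : Finset κ) (b : κ) : av (fun z => D H z * M H b z) = 0 := by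
  by_cases hb : b ∈ H
  · simp only [M, if_pos hb, mul_zero]
    exact av_zero
  · simp only [M, if_neg hb]
    exact av_D_sg H b hb

variable {ι : Type*} [Fintype ι] [DecidableEq ι]

lemma mean_zero (i : ι) (H : Finset κ) (f : (ι → κ → Bool) → κ)
    (hf : ∀ x z, f (Function.update x i z) = f x) :
    av (fun x : ι → κ → Bool => D H (x i) * M H (f x) (x i)) = 0 := by
  rw [av_update i]
  have : ∀ x : ι → κ → Bool, av (fun z : κ → Bool => D H (Function.update x i z i) *
      M H (f (Function.update x i z)) (Function.update x i z i)) = 0 := by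
    intro x
    simp only [Function.update_self, hf]
    exact av_D_M H (f x)
  simp only [this]
  exact av_zero

lemma av_coord (i : ι) (φ : (κ → Bool) → ℝ) :
    av (fun x : ι → κ → Bool => φ (x i)) = av φ := by
  rw [av_update i]
  simp only [Function.update_self]
  exact av_const _

/-- `i` sees the stack of `j` through `g`. -/
lemma limited_pair {r : ℕ} (i j : ι) (hij : i ≠ j) (H H' : Finset κ)
    (f f' : (ι → κ → Bool) → κ) (g : (κ → Bool) → Fin r)
    (h1 : ∀ x z, f' (Function.update x j z) = f' x)
    (h2 : ∀ x z z', g z = g z' → f (Function.update x j z) = f (Function.update x j z'))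
    (lam : ℝ) (hlam : 0 < lam) :
    av (fun x : ι → κ → Bool => D H (x i) * D H' (x j) *
      (M H (f x) (x i) * M H' (f' x) (x j))) ≤
      (lam * av (fun x : ι → κ → Bool => D H (x i) * V H' g (f' x)) + 1 / lam) / 2 := by
  rw [av_update j]
  have key : ∀ x : ι → κ → Bool, av (fun z : κ → Bool => D H (Function.update x j z i) *
      D H' (Function.update x j z j) * (M H (f (Function.update x j z))
        (Function.update x j z i) * M H' (f' (Function.update x j z))
        (Function.update x j z j))) ≤
      D H (x i) * ((lam * V H' g (f' x) + 1 / lam) / 2) := by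
    intro x
    simp only [Function.update_self, Function.update_of_ne hij, h1]
    have e : (fun z : κ → Bool => D H (x i) * D H' z *
        (M H (f (Function.update x j z)) (x i) * M H' (f' x) z)) =
        fun z => D H (x i) * (D H' z * M H' (f' x) z * M H (f (Function.update x j z)) (x i)) := by
      funext z
      ring
    rw [e, av_mul_left]
    refine mul_le_mul_of_nonneg_left ?_ (D_nonneg H _)
    refine (factor_bound g (fun z => D H' z * M H' (f' x) z)
      (fun z => M H (f (Function.update x j z)) (x i)) (fun z z' h => ?_)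
      fun z => abs_M_le _ _ _).trans ?_
    · rw [h2 x z z' h]
    · calc ∑ c, |ec H' g c (f' x)|
          ≤ ∑ c, (lam * (ec H' g c (f' x) ^ 2 / pc H' g c) + pc H' g c / lam) / 2 :=
            Finset.sum_le_sum fun c _ => abs_ec_le_amgm H' g c (f' x) lam hlam
        _ = (lam * V H' g (f' x) + 1 / lam) / 2 := by
            rw [← Finset.sum_div, Finset.sum_add_distrib, ← Finset.mul_sum, ← Finset.sum_div,
              pc_sum]
            rfl
  refine (av_le key).trans (le_of_eq ?_)
  have e : (fun x : ι → κ → Bool => D H (x i) * ((lam * V H' g (f' x) + 1 / lam) / 2)) =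
      fun x => (lam / 2) * (D H (x i) * V H' g (f' x)) + D H (x i) * (1 / lam / 2) := by
    funext x
    ring
  rw [e, av_add, av_mul_left, av_mul_right, av_coord i (D H), av_D]
  ring

/-- Two stacks, each seen by the other player through a signal. -/
lemma both_limited {r r' : ℕ} (H H' : Finset κ) (g : (κ → Bool) → Fin r)
    (g' : (κ → Bool) → Fin r') (f f' : (κ → Bool) → κ) (hf : ∀ w w', g w = g w' → f w = f w')
    (hf' : ∀ z z', g' z = g' z' → f' z = f' z') :
    av (fun z : κ → Bool => av (fun w : κ → Bool => D H z * D H' w *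
      (M H (f w) z * M H' (f' z) w))) ≤
      (av (fun z : κ → Bool => D H z * V H' g (f' z)) +
        av (fun w : κ → Bool => D H' w * V H g' (f w))) / 2 := by
  have : Nonempty κ := ⟨f fun _ => true⟩
  obtain ⟨F, hF⟩ := (Function.factorsThrough_iff (f := g) f).1 (fun w w' h => hf w w' h)
  obtain ⟨F', hF'⟩ := (Function.factorsThrough_iff (f := g') f').1 (fun w w' h => hf' w w' h)
  have hFw : ∀ w, f w = F (g w) := fun w => congrFun hF w
  have hFz : ∀ z, f' z = F' (g' z) := fun z => congrFun hF' z
  have e1 : av (fun z : κ → Bool => av (fun w : κ → Bool => D H z * D H' w *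
      (M H (f w) z * M H' (f' z) w))) =
      ∑ c', ∑ c, ec H g' c' (F c) * ec H' g c (F' c') := by
    have s1 : ∀ z w : κ → Bool, D H z * D H' w * (M H (f w) z * M H' (f' z) w) =
        ∑ c', ∑ c, (D H z * M H (F c) z * (if g' z = c' then 1 else 0)) *
          (D H' w * M H' (F' c') w * (if g w = c then 1 else 0)) := by
      intro z w
      rw [Finset.sum_eq_single (g' z), Finset.sum_eq_single (g w)]
      · rw [hFw, hFz]
        simp only [if_true]
        ring
      · intro c _ hc
        simp [Ne.symm hc]
      · intro h; exact absurd (Finset.mem_univ _) h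
      · intro c _ hc
        simp [Ne.symm hc]
      · intro h; exact absurd (Finset.mem_univ _) h
    simp_rw [s1]
    have s2 : ∀ z : κ → Bool, av (fun w : κ → Bool => ∑ c', ∑ c,
        (D H z * M H (F c) z * (if g' z = c' then 1 else 0)) *
          (D H' w * M H' (F' c') w * (if g w = c then 1 else 0))) =
        ∑ c', ∑ c, (D H z * M H (F c) z * (if g' z = c' then 1 else 0)) *
          ec H' g c (F' c') := by
      intro z
      rw [av_sum]
      refine Finset.sum_congr rfl fun c' _ => ?_
      rw [av_sum]
      refine Finset.sum_congr rfl fun c _ => ?_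
      rw [av_mul_left]
      rfl
    simp_rw [s2]
    rw [av_sum]
    refine Finset.sum_congr rfl fun c' _ => ?_
    rw [av_sum]
    refine Finset.sum_congr rfl fun c _ => ?_
    rw [av_mul_right]
    rfl
  have e2 : av (fun z : κ → Bool => D H z * V H' g (f' z)) =
      ∑ c', pc H g' c' * V H' g (F' c') := by
    rw [av_split g']
    refine Finset.sum_congr rfl fun c' _ => ?_
    unfold pc
    rw [← av_mul_right]
    congr 1
    funext z
    split_ifs with h
    · rw [hFz, h]; ring
    · ring
  have e3 : av (fun w : κ → Bool => D H' w * V H g' (f w)) =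
      ∑ c, pc H' g c * V H g' (F c) := by
    rw [av_split g]
    refine Finset.sum_congr rfl fun c _ => ?_
    unfold pc
    rw [← av_mul_right]
    congr 1
    funext w
    split_ifs with h
    · rw [hFw, h]; ring
    · ring
  rw [e1, e2, e3]
  calc ∑ c', ∑ c, ec H g' c' (F c) * ec H' g c (F' c')
      ≤ ∑ c', ∑ c, (pc H' g c * (ec H g' c' (F c) ^ 2 / pc H g' c') +
          pc H g' c' * (ec H' g c (F' c') ^ 2 / pc H' g c)) / 2 :=
        Finset.sum_le_sum fun c' _ => Finset.sum_le_sum fun c _ =>
          ec_mul_ec_le H H' g' g c' c (F c) (F' c')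
    _ = (∑ c', ∑ c, pc H' g c * (ec H g' c' (F c) ^ 2 / pc H g' c') +
          ∑ c', ∑ c, pc H g' c' * (ec H' g c (F' c') ^ 2 / pc H' g c)) / 2 := by
        simp_rw [← Finset.sum_div, Finset.sum_add_distrib]
    _ = (∑ c', pc H g' c' * V H' g (F' c') + ∑ c, pc H' g c * V H g' (F c)) / 2 := by
        have a1 : ∑ c', ∑ c, pc H' g c * (ec H g' c' (F c) ^ 2 / pc H g' c') =
            ∑ c, pc H' g c * V H g' (F c) := by
          rw [Finset.sum_comm]
          refine Finset.sum_congr rfl fun c _ => ?_
          rw [← Finset.mul_sum]
          rfl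
        have a2 : ∑ c', ∑ c, pc H g' c' * (ec H' g c (F' c') ^ 2 / pc H' g c) =
            ∑ c', pc H g' c' * V H' g (F' c') := by
          refine Finset.sum_congr rfl fun c' _ => ?_
          rw [← Finset.mul_sum]
          rfl
        rw [a1, a2, add_comm]

/-- `i` sees the stack of `j` through `g` and `j` sees the stack of `i` through `g'`. -/
lemma both_limited_pair {r r' : ℕ} (i j : ι) (hij : i ≠ j) (H H' : Finset κ)
    (f f' : (ι → κ → Bool) → κ) (g : (κ → Bool) → Fin r) (g' : (κ → Bool) → Fin r')
    (hf : ∀ x z, f (Function.update x i z) = f x)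
    (hf' : ∀ x z, f' (Function.update x j z) = f' x)
    (h2 : ∀ x z z', g z = g z' → f (Function.update x j z) = f (Function.update x j z'))
    (h2' : ∀ x z z', g' z = g' z' → f' (Function.update x i z) = f' (Function.update x i z')) :
    av (fun x : ι → κ → Bool => D H (x i) * D H' (x j) *
      (M H (f x) (x i) * M H' (f' x) (x j))) ≤
      (av (fun x : ι → κ → Bool => D H (x i) * V H' g (f' x)) +
        av (fun x : ι → κ → Bool => D H' (x j) * V H g' (f x))) / 2 := by
  have hcm : ∀ x z w, f' (Function.update (Function.update x j w) i z) =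
      f' (Function.update x i z) := by
    intro x z w
    rw [Function.update_comm hij.symm, hf']
  have e1 : av (fun x : ι → κ → Bool => D H (x i) * D H' (x j) *
      (M H (f x) (x i) * M H' (f' x) (x j))) =
      av (fun x : ι → κ → Bool => av (fun z : κ → Bool => av (fun w : κ → Bool =>
        D H z * D H' w * (M H (f (Function.update x j w)) z *
          M H' (f' (Function.update x i z)) w)))) := by
    rw [av_update i, av_update j]
    congr 1
    funext x
    simp only [Function.update_self, Function.update_of_ne hij.symm, hf, hcm]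
    rw [av_comm]
  have e2 : av (fun x : ι → κ → Bool => D H (x i) * V H' g (f' x)) =
      av (fun x : ι → κ → Bool => av (fun z : κ → Bool =>
        D H z * V H' g (f' (Function.update x i z)))) := by
    rw [av_update i]
    simp only [Function.update_self]
  have e3 : av (fun x : ι → κ → Bool => D H' (x j) * V H g' (f x)) =
      av (fun x : ι → κ → Bool => av (fun w : κ → Bool =>
        D H' w * V H g' (f (Function.update x j w)))) := by
    rw [av_update j]
    simp only [Function.update_self]
  rw [e1, e2, e3, ← av_add]
  have e4 : ∀ F : (ι → κ → Bool) → ℝ, av F / 2 = av (fun x => F x * (1 / 2)) := by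
    intro F
    rw [av_mul_right]
    ring
  rw [e4]
  refine av_le fun x => ?_
  refine (both_limited H H' g g' (fun w => f (Function.update x j w))
    (fun z => f' (Function.update x i z)) (h2 x) (h2' x)).trans (le_of_eq ?_)
  ring

omit [Fintype κ] in
/-- Make the hats of `H` white. -/
def white (H : Finset κ) (z : κ → Bool) : κ → Bool := fun b => if b ∈ H then false else z b

lemma card_white (H : Finset κ) (y : κ → Bool) :
    ∑ z : κ → Bool, (if white H z = y then (1 : ℝ) else 0) = D H y := by
  have e1 : ∀ z : κ → Bool, (if white H z = y then (1 : ℝ) else 0) =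
      ∏ b, (if (if b ∈ H then false else z b) = y b then (1 : ℝ) else 0) := by
    intro z
    split_ifs with hz
    · refine (Finset.prod_eq_one fun b _ => ?_).symm
      have := congrFun hz b
      unfold white at this
      rw [if_pos this]
    · have : ∃ b, (if b ∈ H then false else z b) ≠ y b := by
        by_contra hc
        push Not at hc
        exact hz (funext hc)
      obtain ⟨b, hb⟩ := this
      exact (Finset.prod_eq_zero (Finset.mem_univ b) (if_neg hb)).symm
  simp only [e1]
  have e2 := Finset.prod_univ_sum (fun _ : κ => (Finset.univ : Finset Bool))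
    (fun (b : κ) (c : Bool) => (if (if b ∈ H then false else c) = y b then (1 : ℝ) else 0))
  rw [Fintype.piFinset_univ] at e2
  rw [← e2]
  unfold D
  refine Finset.prod_congr rfl fun b _ => ?_
  unfold dw
  rw [Fintype.sum_bool]
  by_cases hb : b ∈ H
  · simp only [if_pos hb]
    cases y b
    · norm_num
    · norm_num
  · simp only [if_neg hb]
    cases y b <;> norm_num

lemma av_D_white (H : Finset κ) (Φ : (κ → Bool) → ℝ) :
    av (fun z => D H z * Φ z) = av (fun z => Φ (white H z)) := by
  have e1 : ∀ z : κ → Bool, Φ (white H z) =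
      ∑ y, (if white H z = y then (1 : ℝ) else 0) * Φ y := by
    intro z
    simp
  simp only [av, e1]
  congr 1
  rw [Finset.sum_comm]
  refine Finset.sum_congr rfl fun y _ => ?_
  rw [← Finset.sum_mul, card_white]

omit [Fintype κ] in
lemma white_idem (H : Finset κ) (b : κ) (z : κ → Bool) (hb : b ∉ H) : white H z b = z b := by
  unfold white
  rw [if_neg hb]

/-- The hats of `H` are invisible after `white`. -/
lemma flip_mean (H : Finset κ) (b : κ) (ψ : (κ → Bool) → ℝ) :
    av (fun w => ψ (white H w) * sg (w b)) = av (fun w => ψ (white H w) * M H b (white H w)) := by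
  by_cases hb : b ∈ H
  · have h1 : av (fun w => ψ (white H w) * sg (w b)) = 0 := by
      set t : (κ → Bool) → κ → Bool := fun w => Function.update w b (!w b) with ht
      have htinv : Function.Involutive t := by
        intro w
        simp only [ht, Function.update_self, Bool.not_not, Function.update_idem,
          Function.update_eq_self]
      have hw : ∀ w, white H (t w) = white H w := by
        intro w
        funext a
        unfold white
        by_cases ha : a ∈ H
        · rw [if_pos ha, if_pos ha]
        · rw [if_neg ha, if_neg ha]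
          have : a ≠ b := fun h => ha (h ▸ hb)
          simp only [ht, Function.update_of_ne this]
      have h2 := av_comp_invol t htinv (fun w => ψ (white H w) * sg (w b))
      have h3 : av (fun w => ψ (white H (t w)) * sg (t w b)) =
          - av (fun w => ψ (white H w) * sg (w b)) := by
        have e : (fun w => ψ (white H (t w)) * sg (t w b)) =
            fun w => (-1) * (ψ (white H w) * sg (w b)) := by
          funext w
          rw [hw]
          simp only [ht, Function.update_self, sg_not]
          ring
        rw [e, av_mul_left]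
        ring
      rw [h3] at h2
      linarith
    rw [h1]
    simp only [M, if_pos hb, mul_zero]
    exact av_zero.symm
  · simp only [M, if_neg hb, white_idem H b _ hb]

/-- Two players who see each other's stacks in full, with the weights `D`. -/
theorem two_way (c : ℝ) (hc : ∀ f f' : (κ → Bool) → κ,
    av (fun z : κ → Bool => av (fun w : κ → Bool => sg (z (f w)) * sg (w (f' z)))) ≤ c)
    (H H' : Finset κ) (f f' : (κ → Bool) → κ) :
    av (fun z : κ → Bool => av (fun w : κ → Bool => D H z * D H' w *
      (M H (f w) z * M H' (f' z) w))) ≤ c := by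
  have e1 : av (fun z : κ → Bool => av (fun w : κ → Bool => D H z * D H' w *
      (M H (f w) z * M H' (f' z) w))) =
      av (fun z : κ → Bool => av (fun w : κ → Bool =>
        M H (f (white H' w)) (white H z) * M H' (f' (white H z)) (white H' w))) := by
    have s1 : (fun z : κ → Bool => av (fun w : κ → Bool => D H z * D H' w *
        (M H (f w) z * M H' (f' z) w))) =
        fun z => D H z * av (fun w : κ → Bool =>
          M H (f (white H' w)) z * M H' (f' z) (white H' w)) := by
      funext z
      rw [← av_D_white H' (fun w => M H (f w) z * M H' (f' z) w), ← av_mul_left]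
      congr 1
      funext w
      ring
    rw [s1, av_D_white H (fun z => av (fun w : κ → Bool =>
      M H (f (white H' w)) z * M H' (f' z) (white H' w)))]
  have e2 : av (fun z : κ → Bool => av (fun w : κ → Bool =>
        sg (z (f (white H' w))) * sg (w (f' (white H z))))) =
      av (fun z : κ → Bool => av (fun w : κ → Bool =>
        M H (f (white H' w)) (white H z) * M H' (f' (white H z)) (white H' w))) := by
    calc av (fun z : κ → Bool => av (fun w : κ → Bool =>
          sg (z (f (white H' w))) * sg (w (f' (white H z)))))
        = av (fun z : κ → Bool => av (fun w : κ → Bool =>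
          sg (z (f (white H' w))) * M H' (f' (white H z)) (white H' w))) := by
          congr 1
          funext z
          exact flip_mean H' (f' (white H z)) (fun w => sg (z (f w)))
      _ = av (fun w : κ → Bool => av (fun z : κ → Bool =>
          sg (z (f (white H' w))) * M H' (f' (white H z)) (white H' w))) := av_comm _
      _ = av (fun w : κ → Bool => av (fun z : κ → Bool =>
          M H (f (white H' w)) (white H z) * M H' (f' (white H z)) (white H' w))) := by
          congr 1
          funext w
          have h := flip_mean H (f (white H' w)) (fun z => M H' (f' z) (white H' w))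
          simp only [mul_comm] at h ⊢
          exact h
      _ = _ := av_comm _
  rw [e1, ← e2]
  exact hc (fun w => f (white H' w)) (fun z => f' (white H z))

/-- `i` and `j` see each other's stacks in full. -/
lemma two_way_pair (c : ℝ) (hc : ∀ f f' : (κ → Bool) → κ,
    av (fun z : κ → Bool => av (fun w : κ → Bool => sg (z (f w)) * sg (w (f' z)))) ≤ c)
    (i j : ι) (hij : i ≠ j) (H H' : Finset κ)
    (f f' : (ι → κ → Bool) → κ)
    (hf : ∀ x z, f (Function.update x i z) = f x)
    (hf' : ∀ x z, f' (Function.update x j z) = f' x) :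
    av (fun x : ι → κ → Bool => D H (x i) * D H' (x j) *
      (M H (f x) (x i) * M H' (f' x) (x j))) ≤ c := by
  rw [av_update i, av_update j]
  have : ∀ x : ι → κ → Bool, av (fun w : κ → Bool => av (fun z : κ → Bool =>
      D H (Function.update (Function.update x j w) i z i) *
        D H' (Function.update (Function.update x j w) i z j) *
      (M H (f (Function.update (Function.update x j w) i z))
          (Function.update (Function.update x j w) i z i) *
        M H' (f' (Function.update (Function.update x j w) i z))
          (Function.update (Function.update x j w) i z j)))) ≤ c := by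
    intro x
    have hcm : ∀ z w, f' (Function.update (Function.update x j w) i z) =
        f' (Function.update x i z) := by
      intro z w
      rw [Function.update_comm hij.symm, hf']
    simp only [Function.update_self, Function.update_of_ne hij.symm, hf, hcm]
    rw [av_comm]
    exact two_way c hc H H' (fun w => f (Function.update x j w))
      (fun z => f' (Function.update x i z))
  calc _ ≤ av (fun _ : ι → κ → Bool => c) := av_le this
    _ = c := av_const _

/-- Variance of a sum of independent centred functions. -/
lemma av_sq_sum (φ : ι → (κ → Bool) → ℝ) (h0 : ∀ i, av (φ i) = 0) :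
    av (fun x : ι → κ → Bool => (∑ i, φ i (x i)) ^ 2) = ∑ i, av (fun z => φ i z ^ 2) := by
  have e1 : (fun x : ι → κ → Bool => (∑ i, φ i (x i)) ^ 2) =
      fun x => ∑ i, ∑ j, φ i (x i) * φ j (x j) := by
    funext x
    rw [pow_two, Finset.sum_mul_sum]
  rw [e1, av_sum]
  refine Finset.sum_congr rfl fun i _ => ?_
  rw [av_sum, Finset.sum_eq_single i]
  · have := av_coord (ι := ι) i (fun z => φ i z ^ 2)
    rw [← this]
    congr 1
    funext x
    ring
  · intro j _ hj
    rw [av_update j]
    have : ∀ x : ι → κ → Bool, av (fun z : κ → Bool =>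
        φ i (Function.update x j z i) * φ j (Function.update x j z j)) = 0 := by
      intro x
      simp only [Function.update_self, Function.update_of_ne hj.symm]
      rw [av_mul_left, h0, mul_zero]
    simp only [this]
    exact av_zero
  · intro h
    exact absurd (Finset.mem_univ i) h

lemma av_D_sub_one (H : Finset κ) : av (fun z => D H z - 1) = 0 := by
  rw [av_sub, av_D, av_const, sub_self]

lemma av_D_sub_one_sq (H : Finset κ) (h : ℕ) (hH : H.card ≤ h) :
    av (fun z => (D H z - 1) ^ 2) ≤ 2 ^ h := by
  have e : (fun z : κ → Bool => (D H z - 1) ^ 2) = fun z => D H z ^ 2 - (2 * D H z - 1) := by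
    funext z
    ring
  have h1 : (2 : ℝ) ^ H.card ≤ 2 ^ h := pow_le_pow_right₀ (by norm_num) hH
  rw [e, av_sub, av_sub, av_D_sq, av_mul_left, av_D, av_const]
  linarith

/-- AM-GM in the form used below. -/
lemma le_half (t η : ℝ) (hη : 0 < η) : t ≤ (t ^ 2 / Real.sqrt η + Real.sqrt η) / 2 := by
  have hs : 0 < Real.sqrt η := Real.sqrt_pos.2 hη
  have h1 : t ^ 2 / Real.sqrt η + Real.sqrt η - 2 * t = (t - Real.sqrt η) ^ 2 / Real.sqrt η := by
    field_simp
    ring
  have h2 : 0 ≤ (t - Real.sqrt η) ^ 2 / Real.sqrt η := by positivity
  linarith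

/-- The weights `D` change little, on average over the group. -/
lemma J_bound (h : ℕ) (hh : 0 < h) (hι : 0 < Fintype.card ι)
    (H : ι → Finset κ) (hH : ∀ i, (H i).card ≤ h) (Hj : Finset κ)
    (f : (ι → κ → Bool) → κ)
    (hf : ∀ b, b ∉ Hj → av (fun x => if f x = b then (1 : ℝ) else 0) ≤ 1 / h)
    (Q : ι → κ → ℝ) (hQ0 : ∀ i b, 0 ≤ Q i b) (hQ1 : ∀ i b, Q i b ≤ 1)
    (L : ι → ℝ) (hQs : ∀ i, ∑ b, Q i b ≤ 2 * L i) (hQj : ∀ i, ∀ b ∈ Hj, Q i b = 0)
    (m Λ η : ℝ) (hm : m = Fintype.card ι) (hΛ : Λ = (∑ i, L i) / m) (hη : 0 < η) :
    av (fun x : ι → κ → Bool => (∑ i, D (H i) (x i) * Q i (f x)) / m) ≤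
      2 * Λ / h + ((2 * Λ * 2 ^ h / m) / Real.sqrt η + Real.sqrt η) / 2 := by
  have hm0 : 0 < m := by rw [hm]; exact_mod_cast hι
  have hh0 : (0 : ℝ) < h := by exact_mod_cast hh
  have hsum : ∑ i, L i = m * Λ := by rw [hΛ]; field_simp
  set ρ : κ → (ι → κ → Bool) → ℝ := fun b x => ∑ i, (D (H i) (x i) - 1) * Q i b / m with hρ
  have hsplit : (fun x : ι → κ → Bool => (∑ i, D (H i) (x i) * Q i (f x)) / m) =
      fun x => (∑ i, Q i (f x)) / m + ρ (f x) x := by
    funext x
    simp only [hρ]
    rw [← Finset.sum_div, ← add_div, ← Finset.sum_add_distrib]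
    congr 1
    exact Finset.sum_congr rfl fun i _ => by ring
  rw [hsplit, av_add]
  have h1 : av (fun x : ι → κ → Bool => (∑ i, Q i (f x)) / m) ≤ 2 * Λ / h := by
    have e1 : ∀ i, av (fun x : ι → κ → Bool => Q i (f x)) ≤ 2 * L i / h := by
      intro i
      have e2 : (fun x : ι → κ → Bool => Q i (f x)) =
          fun x => ∑ b, Q i b * (if f x = b then (1 : ℝ) else 0) := by
        funext x
        simp
      rw [e2, av_sum]
      calc ∑ b, av (fun x => Q i b * (if f x = b then (1 : ℝ) else 0))
          ≤ ∑ b, Q i b * (1 / h) := by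
            refine Finset.sum_le_sum fun b _ => ?_
            rw [av_mul_left]
            by_cases hb : b ∈ Hj
            · rw [hQj i b hb, zero_mul, zero_mul]
            · exact mul_le_mul_of_nonneg_left (hf b hb) (hQ0 i b)
        _ = (∑ b, Q i b) * (1 / h) := (Finset.sum_mul _ _ _).symm
        _ ≤ 2 * L i * (1 / h) := mul_le_mul_of_nonneg_right (hQs i) (by positivity)
        _ = 2 * L i / h := by ring
    have e3 : (fun x : ι → κ → Bool => (∑ i, Q i (f x)) / m) =
        fun x => (∑ i, Q i (f x)) * (1 / m) := by
      funext x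
      ring
    rw [e3, av_mul_right, av_sum]
    calc (∑ i, av (fun x : ι → κ → Bool => Q i (f x))) * (1 / m)
        ≤ (∑ i : ι, 2 * L i / h) * (1 / m) :=
          mul_le_mul_of_nonneg_right (Finset.sum_le_sum fun i _ => e1 i) (by positivity)
      _ = 2 * Λ / h := by
          rw [← Finset.sum_div, ← Finset.mul_sum, hsum]
          field_simp
  have hvar : ∀ b, av (fun x => ρ b x ^ 2) ≤ (∑ i, Q i b) * 2 ^ h / m ^ 2 := by
    intro b
    have e1 := av_sq_sum (fun i z => (D (H i) z - 1) * Q i b / m) (fun i => by
      have e2 : (fun z => (D (H i) z - 1) * Q i b / m) =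
          fun z => (D (H i) z - 1) * (Q i b / m) := by
        funext z
        ring
      rw [e2, av_mul_right, av_D_sub_one, zero_mul])
    simp only [hρ]
    rw [e1, Finset.sum_mul, Finset.sum_div]
    refine Finset.sum_le_sum fun i _ => ?_
    have e2 : (fun z => ((D (H i) z - 1) * Q i b / m) ^ 2) =
        fun z => (D (H i) z - 1) ^ 2 * (Q i b ^ 2 / m ^ 2) := by
      funext z
      ring
    rw [e2, av_mul_right]
    have e3 := av_D_sub_one_sq (H i) h (hH i)
    have e4 : Q i b ^ 2 ≤ Q i b := by nlinarith [hQ0 i b, hQ1 i b]
    calc av (fun z => (D (H i) z - 1) ^ 2) * (Q i b ^ 2 / m ^ 2)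
        ≤ 2 ^ h * (Q i b ^ 2 / m ^ 2) := mul_le_mul_of_nonneg_right e3 (by positivity)
      _ ≤ 2 ^ h * (Q i b / m ^ 2) := by gcongr
      _ = Q i b * 2 ^ h / m ^ 2 := by ring
  have h2 : av (fun x => ρ (f x) x) ≤
      ((2 * Λ * 2 ^ h / m) / Real.sqrt η + Real.sqrt η) / 2 := by
    have e1 : av (fun x => ρ (f x) x ^ 2) ≤ 2 * Λ * 2 ^ h / m := by
      calc av (fun x => ρ (f x) x ^ 2) ≤ av (fun x => ∑ b, ρ b x ^ 2) :=
            av_le fun x => Finset.single_le_sum (f := fun b => ρ b x ^ 2)
              (fun b _ => sq_nonneg _) (Finset.mem_univ (f x))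
        _ = ∑ b, av (fun x => ρ b x ^ 2) := av_sum _ _
        _ ≤ ∑ b, (∑ i, Q i b) * 2 ^ h / m ^ 2 := Finset.sum_le_sum fun b _ => hvar b
        _ = (∑ i, ∑ b, Q i b) * 2 ^ h / m ^ 2 := by
            rw [← Finset.sum_div, ← Finset.sum_mul, Finset.sum_comm]
        _ ≤ (∑ i : ι, 2 * L i) * 2 ^ h / m ^ 2 := by
            have : ∑ i, ∑ b, Q i b ≤ ∑ i : ι, 2 * L i := Finset.sum_le_sum fun i _ => hQs i
            gcongr
        _ = 2 * Λ * 2 ^ h / m := by
            rw [← Finset.mul_sum, hsum]
            field_simp
    have hs : 0 < Real.sqrt η := Real.sqrt_pos.2 hη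
    calc av (fun x => ρ (f x) x)
        ≤ av (fun x => ρ (f x) x ^ 2 * (1 / (2 * Real.sqrt η)) + Real.sqrt η / 2) := by
          refine av_le fun x => ?_
          refine (le_half (ρ (f x) x) η hη).trans (le_of_eq ?_)
          field_simp
      _ = av (fun x => ρ (f x) x ^ 2) * (1 / (2 * Real.sqrt η)) + Real.sqrt η / 2 := by
          rw [av_add, av_mul_right, av_const]
      _ ≤ (2 * Λ * 2 ^ h / m) * (1 / (2 * Real.sqrt η)) + Real.sqrt η / 2 := by
          gcongr
      _ = ((2 * Λ * 2 ^ h / m) / Real.sqrt η + Real.sqrt η) / 2 := by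
          field_simp
  linarith

end Pool.Agent.PS
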