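import Mathlib

/-!
# The choice of the parameters
-/

set_option autoImplicit false

namespace Pool.Agent.PS

lemma exp_five_half : (12.18 : ℝ) ≤ Real.exp (5 / 2) := by
  have h1 : Real.exp (5 / 2) ^ 2 = Real.exp 1 ^ 5 := by
    rw [← Real.exp_nat_mul, ← Real.exp_nat_mul]
    norm_num
  have h2 : (2.7182818283 : ℝ) ^ 5 ≤ Real.exp 1 ^ 5 :=
    pow_le_pow_left₀ (by norm_num) Real.exp_one_gt_d9.le 5
  have h3 : (12.18 : ℝ) ^ 2 ≤ Real.exp (5 / 2) ^ 2 := by
    rw [h1]
    refine le_trans ?_ h2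
    norm_num
  exact le_of_sq_le_sq h3 (Real.exp_pos _).le
where
  le_of_sq_le_sq {a b : ℝ} (h : a ^ 2 ≤ b ^ 2) (hb : 0 ≤ b) : a ≤ b := by
    by_contra hc
    push Not at hc
    nlinarith

lemma exp_neg_quarter (y : ℝ) (hy : 10 ≤ y) : Real.exp (-(y / 4)) * y ≤ 0.8214 := by
  have h1 := exp_five_half
  have h2 : Real.exp (y / 4) = Real.exp (5 / 2) * Real.exp (y / 4 - 5 / 2) := by
    rw [← Real.exp_add]; congr 1; ring
  have h3 : y / 4 - 5 / 2 + 1 ≤ Real.exp (y / 4 - 5 / 2) := Real.add_one_le_exp _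
  have h4 : 12.18 * (y / 4 - 5 / 2 + 1) ≤ Real.exp (y / 4) := by
    rw [h2]
    exact mul_le_mul h1 h3 (by linarith) (Real.exp_pos _).le
  have h5 : y ≤ 0.8214 * Real.exp (y / 4) := by linarith
  have h6 : Real.exp (-(y / 4)) * Real.exp (y / 4) = 1 := by
    rw [← Real.exp_add]; simp
  calc Real.exp (-(y / 4)) * y ≤ Real.exp (-(y / 4)) * (0.8214 * Real.exp (y / 4)) :=
        mul_le_mul_of_nonneg_left h5 (Real.exp_pos _).le
    _ = 0.8214 * (Real.exp (-(y / 4)) * Real.exp (y / 4)) := by ring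
    _ = 0.8214 := by rw [h6, mul_one]

theorem numeric (m : ℕ) (L ε y : ℝ) (hy : y = Real.log m) (hL : 1 ≤ L) (hLy : 10 * L < y)
    (hε : 0 ≤ ε) : ∃ h : ℕ, 0 < h ∧ ∃ lam : ℝ, 0 < lam ∧
      2 ^ h / (m : ℝ) + ε / (2 * lam) +
        (1 + lam) * (2 * L / h + Real.sqrt (2 * L * 2 ^ h / m)) + 2 * Real.sqrt (2 ^ h / m) ≤
      3 * Real.sqrt (ε * (L / y)) + 10 * (L / y) := by
  have hy10 : 10 < y := by linarith
  have hy0 : 0 < y := by linarith
  have hm0 : (0 : ℝ) < m := by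
    rcases Nat.eq_zero_or_pos m with h | h
    · rw [h] at hy
      simp at hy
      linarith
    · exact_mod_cast h
  have hmy : (m : ℝ) = Real.exp y := by rw [hy, Real.exp_log hm0]
  have hl1 := Real.log_two_gt_d9
  have hl2 := Real.log_two_lt_d9
  set h : ℕ := ⌊y / (2 * Real.log 2)⌋₊ with hh
  have hq0 : 0 ≤ y / (2 * Real.log 2) := by positivity
  have hb1 : (h : ℝ) ≤ y / (2 * Real.log 2) := Nat.floor_le hq0
  have hb2 : y / (2 * Real.log 2) < h + 1 := Nat.lt_floor_add_one _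
  have hb3 : 0.72134 * y ≤ y / (2 * Real.log 2) := by
    rw [le_div_iff₀ (by positivity)]
    have e1 : 0.72134 * y * (2 * Real.log 2) ≤ 0.72134 * y * (2 * 0.6931471808) := by gcongr
    nlinarith
  have hh1 : 0.62134 * y ≤ h := by linarith
  have hh0 : (0 : ℝ) < h := by linarith
  have hhn : 0 < h := by exact_mod_cast hh0
  set q : ℝ := Real.exp (-(y / 4)) with hq
  have hq1 : 0 < q := Real.exp_pos _
  have hqy : q * y ≤ 0.8214 := exp_neg_quarter y hy10.le
  have h2h : (2 : ℝ) ^ h / m ≤ q ^ 2 := by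
    have e1 : (2 : ℝ) ^ h = Real.exp (h * Real.log 2) := by
      rw [Real.exp_nat_mul, Real.exp_log (by norm_num)]
    have e2 : (h : ℝ) * Real.log 2 ≤ y / 2 := by
      have := mul_le_mul_of_nonneg_right hb1 (by positivity : 0 ≤ Real.log 2)
      refine this.trans (le_of_eq ?_)
      field_simp
    have e3 : q ^ 2 = Real.exp (-(y / 2)) := by
      rw [hq, ← Real.exp_nat_mul]
      congr 1
      push_cast
      ring
    rw [e1, hmy, ← Real.exp_sub, e3]
    exact Real.exp_le_exp.2 (by linarith)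
  have h2h0 : 0 ≤ (2 : ℝ) ^ h / m := by positivity
  have hs1 : Real.sqrt (2 ^ h / m) ≤ q := by
    calc Real.sqrt (2 ^ h / m) ≤ Real.sqrt (q ^ 2) := Real.sqrt_le_sqrt h2h
      _ = q := Real.sqrt_sq hq1.le
  have hs2 : Real.sqrt (2 * L * 2 ^ h / m) ≤ 1.4143 * L * q := by
    have e1 : 2 * L * 2 ^ h / m ≤ (1.4143 * L * q) ^ 2 := by
      have e2 : 2 * L * 2 ^ h / m = 2 * L * (2 ^ h / m) := by ring
      rw [e2]
      calc 2 * L * (2 ^ h / m) ≤ 2 * L * q ^ 2 :=
            mul_le_mul_of_nonneg_left h2h (by linarith)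
        _ ≤ 1.4143 ^ 2 * L ^ 2 * q ^ 2 := by
            refine mul_le_mul_of_nonneg_right ?_ (by positivity)
            nlinarith
        _ = (1.4143 * L * q) ^ 2 := by ring
    calc Real.sqrt (2 * L * 2 ^ h / m) ≤ Real.sqrt ((1.4143 * L * q) ^ 2) := Real.sqrt_le_sqrt e1
      _ = 1.4143 * L * q := Real.sqrt_sq (by positivity)
  set u : ℝ := L / y with hu
  have hu0 : 0 < u := by positivity
  have hqu : q ≤ 0.8214 * u := by
    have e1 : q ≤ 0.8214 / y := by rw [le_div_iff₀ hy0]; exact hqy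
    have e2 : 0.8214 / y ≤ 0.8214 * u := by
      rw [hu, ← mul_div_assoc]
      exact div_le_div_of_nonneg_right (by linarith) hy0.le
    linarith
  have hLq : L * q ≤ 0.8214 * u := by
    have e1 : L * q = u * (q * y) := by rw [hu]; field_simp
    rw [e1]
    calc u * (q * y) ≤ u * 0.8214 := mul_le_mul_of_nonneg_left hqy hu0.le
      _ = 0.8214 * u := by ring
  have hLh : 2 * L / h ≤ 3.219 * u := by
    rw [div_le_iff₀ hh0, hu]
    have e1 : 3.219 * (L / y) * (0.62134 * y) ≤ 3.219 * (L / y) * h :=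
      mul_le_mul_of_nonneg_left hh1 (by positivity)
    have e2 : 3.219 * (L / y) * (0.62134 * y) = 3.219 * 0.62134 * L := by
      field_simp
    nlinarith
  have hJ : 2 * L / h + Real.sqrt (2 * L * 2 ^ h / m) ≤ 4.5 * u := by
    have : 1.4143 * L * q = 1.4143 * (L * q) := by ring
    nlinarith
  have hJ0 : 0 ≤ 2 * L / h + Real.sqrt (2 * L * 2 ^ h / m) := by positivity
  have hq10 : q ≤ 0.08214 := by nlinarith
  have hrest : 2 ^ h / (m : ℝ) + 2 * Real.sqrt (2 ^ h / m) ≤ 1.8 * u := by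
    have e1 : q ^ 2 ≤ 0.08214 * q := by nlinarith
    nlinarith
  refine ⟨h, hhn, ?_⟩
  rcases hε.eq_or_lt with he | he
  · refine ⟨1 / 2, by norm_num, ?_⟩
    rw [← he]
    simp only [zero_div, zero_mul, Real.sqrt_zero, mul_zero, add_zero, zero_add]
    nlinarith
  · set p : ℝ := Real.sqrt ε with hp
    set w : ℝ := Real.sqrt u with hw
    have hp0 : 0 < p := Real.sqrt_pos.2 he
    have hw0 : 0 < w := Real.sqrt_pos.2 hu0
    have hp2 : ε = p ^ 2 := (Real.sq_sqrt he.le).symm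
    have hw2 : u = w ^ 2 := (Real.sq_sqrt hu0.le).symm
    have hpw : Real.sqrt (ε * u) = p * w := Real.sqrt_mul he.le u
    refine ⟨p / (3 * w), by positivity, ?_⟩
    rw [hpw]
    have e1 : ε / (2 * (p / (3 * w))) = 1.5 * (p * w) := by
      rw [hp2]
      field_simp
      ring
    have e2 : (1 + p / (3 * w)) * (2 * L / h + Real.sqrt (2 * L * 2 ^ h / m)) ≤
        4.5 * u + 1.5 * (p * w) := by
      calc (1 + p / (3 * w)) * (2 * L / h + Real.sqrt (2 * L * 2 ^ h / m))
          ≤ (1 + p / (3 * w)) * (4.5 * u) := mul_le_mul_of_nonneg_left hJ (by positivity)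
        _ = 4.5 * u + 1.5 * (p * w) := by
            rw [hw2]
            field_simp
            ring
    rw [e1]
    linarith

end Pool.Agent.PS
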