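import Pool.Agent.Lib_MP_d91c53_ps.Group
import Pool.Agent.Lib_MP_d91c53_ps.Num

/-!
# The group bound in the setting of the hat game

The stacks outside the group are fixed, and the bound for the group is summed over them.
-/

set_option autoImplicit false

namespace Pool.Agent.PS

open Finset

/-- Two players: from the value to the correlation of the signs. -/
lemma corr_of_value {k : ℕ} (v : ℝ)
    (hv : ∀ f f' : (Fin k → Bool) → Fin k,
      ((univ.filter fun p : (Fin k → Bool) × (Fin k → Bool) =>
        p.1 (f p.2) = true ∧ p.2 (f' p.1) = true).card : ℝ) ≤ v * 4 ^ k)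
    (f f' : (Fin k → Bool) → Fin k) :
    av (fun z : Fin k → Bool => av (fun w : Fin k → Bool => sg (z (f w)) * sg (w (f' z)))) ≤
      4 * v - 1 := by
  have hsg : ∀ b : Fin k, av (fun z : Fin k → Bool => sg (z b)) = 0 := by
    intro b
    have h := av_D_sg (∅ : Finset (Fin k)) b (Finset.notMem_empty b)
    have hD : ∀ z : Fin k → Bool, D ∅ z = 1 := by
      intro z
      unfold D
      exact Finset.prod_eq_one fun b _ => by simp [dw]
    simpa only [hD, one_mul] using h
  have e1 : ∀ a b : Bool, sg a * sg b =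
      4 * (if a = true ∧ b = true then (1 : ℝ) else 0) - (1 + (sg a + sg b)) := by
    intro a b
    cases a <;> cases b <;> norm_num [sg]
  have e2 : av (fun z : Fin k → Bool => av (fun w : Fin k → Bool =>
      sg (z (f w)) * sg (w (f' z)))) =
      4 * av (fun z : Fin k → Bool => av (fun w : Fin k → Bool =>
        if z (f w) = true ∧ w (f' z) = true then (1 : ℝ) else 0)) - 1 := by
    have s1 : ∀ z : Fin k → Bool, av (fun w : Fin k → Bool => sg (z (f w)) * sg (w (f' z))) =
        4 * av (fun w : Fin k → Bool =>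
          if z (f w) = true ∧ w (f' z) = true then (1 : ℝ) else 0) -
          (1 + (av (fun w : Fin k → Bool => sg (z (f w))) + 0)) := by
      intro z
      simp only [e1]
      rw [av_sub, av_mul_left, av_add, av_add, av_const, hsg]
    have s2 : av (fun z : Fin k → Bool => av (fun w : Fin k → Bool => sg (z (f w)))) = 0 := by
      rw [av_comm]
      simp only [hsg]
      exact av_zero
    simp only [s1]
    rw [av_sub, av_mul_left, av_add, av_add, av_const, av_const, s2]
    ring
  have e3 : av (fun z : Fin k → Bool => av (fun w : Fin k → Bool =>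
        if z (f w) = true ∧ w (f' z) = true then (1 : ℝ) else 0)) ≤ v := by
    have h := hv f f'
    have s1 : ((univ.filter fun p : (Fin k → Bool) × (Fin k → Bool) =>
        p.1 (f p.2) = true ∧ p.2 (f' p.1) = true).card : ℝ) =
        ∑ z : Fin k → Bool, ∑ w : Fin k → Bool,
          (if z (f w) = true ∧ w (f' z) = true then (1 : ℝ) else 0) := by
      rw [← Finset.sum_product', Finset.univ_product_univ, Finset.sum_boole]
    rw [s1] at h
    simp only [av, ← Finset.sum_div]
    rw [div_div, div_le_iff₀ (by positivity)]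
    have s2 : (Fintype.card (Fin k → Bool) : ℝ) * (Fintype.card (Fin k → Bool) : ℝ) = 4 ^ k := by
      rw [Fintype.card_fun, Fintype.card_bool, Fintype.card_fin]
      push_cast
      rw [← mul_pow]
      norm_num
    rw [s2]
    exact h
  rw [e2]
  linarith

theorem main_bound (n k : ℕ) (v : ℝ)
    (hv : ∀ f f' : (Fin k → Bool) → Fin k,
      ((univ.filter fun p : (Fin k → Bool) × (Fin k → Bool) =>
        p.1 (f p.2) = true ∧ p.2 (f' p.1) = true).card : ℝ) ≤ v * 4 ^ k)
    (R : Finset (Fin n)) (hR : 2 ≤ R.card)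
    (F : Fin n → Fin n → Prop) [DecidableRel F]
    (r : Fin n → Fin n → ℕ)
    (g : ∀ i j : Fin n, (Fin n → Fin k → Bool) → Fin (r i j))
    (hg : ∀ i ∈ R, ∀ j ∈ R, ∀ x y : Fin n → Fin k → Bool,
      (∀ l, l ∉ R → x l = y l) → x j = y j → g i j x = g i j y)
    (s : Fin n → (Fin n → Fin k → Bool) → Fin k)
    (hs : ∀ i ∈ R, ∀ x y : Fin n → Fin k → Bool,
      (∀ l, l ∉ R → x l = y l) →
      (∀ j ∈ R, j ≠ i → F i j → x j = y j) →
      (∀ j ∈ R, j ≠ i → ¬ F i j → g i j x = g i j y) → s i x = s i y)
    (δ ε B : ℝ)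
    (hδ : δ = (((R ×ˢ R).filter fun p => p.1 ≠ p.2 ∧ F p.1 p.2 ∧ F p.2 p.1).card : ℝ) /
      (R.card : ℝ) ^ 2)
    (hε : ε = (((R ×ˢ R).filter fun p => ¬ (F p.1 p.2 ↔ F p.2 p.1)).card : ℝ) /
      (R.card : ℝ) ^ 2)
    (hB : B = (∑ p ∈ (R ×ˢ R).filter fun p => p.1 ≠ p.2 ∧ ¬ F p.1 p.2,
      Real.log (r p.1 p.2)) / (R.card : ℝ) ^ 2) :
    ((univ.filter fun x : Fin n → Fin k → Bool => ∀ i ∈ R, x i (s i x) = true).card : ℝ) ≤
      ((4 * v - 1) * δ / (1 + (4 * v - 1) * δ) +
        3 * Real.sqrt (ε * ((1 + B) / Real.log R.card)) +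
        10 * ((1 + B) / Real.log R.card)) * 2 ^ (n * k) := by
  classical
  -- a player of the group
  obtain ⟨i₀, hi₀⟩ : R.Nonempty := Finset.card_pos.1 (by omega)
  have b₀ : Fin k := s i₀ fun _ _ => true
  have hc := corr_of_value v hv
  have hc0 : 0 ≤ 4 * v - 1 := by
    have h := hc (fun _ => b₀) (fun _ => b₀)
    have h2 : av (fun z : Fin k → Bool => av (fun w : Fin k → Bool =>
        sg (z b₀) * sg (w b₀))) = 0 := by
      have hsg := av_D_sg (∅ : Finset (Fin k)) b₀ (Finset.notMem_empty b₀)
      have hD : ∀ z : Fin k → Bool, D ∅ z = 1 := by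
        intro z
        unfold D
        exact Finset.prod_eq_one fun b _ => by simp [dw]
      simp only [hD, one_mul] at hsg
      simp only [av_mul_left, hsg, mul_zero]
      exact av_zero
    linarith
  have hδ0 : 0 ≤ δ := by rw [hδ]; positivity
  have hε0 : 0 ≤ ε := by rw [hε]; positivity
  have hB0 : 0 ≤ B := by
    rw [hB]
    exact div_nonneg (Finset.sum_nonneg fun q _ => Real.log_natCast_nonneg _) (by positivity)
  set L : ℝ := 1 + B with hL
  have hL1 : 1 ≤ L := by linarith
  set y₀ : ℝ := Real.log R.card with hy₀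
  have hR2 : (2 : ℝ) ≤ R.card := by exact_mod_cast hR
  have hy0 : 0 < y₀ := Real.log_pos (by linarith)
  set p : Fin n → Prop := fun i => i ∈ R with hp
  set e := Equiv.piEquivPiSubtypeProd p (fun _ => Fin k → Bool) with he
  set glue : ({i // p i} → Fin k → Bool) → ({i // ¬ p i} → Fin k → Bool) →
    Fin n → Fin k → Bool := fun u y => e.symm (u, y) with hglue
  have hin : ∀ u y (i : {i // p i}), glue u y i.1 = u i := by
    intro u y i
    simp only [hglue, he, Equiv.piEquivPiSubtypeProd_symm_apply]
    rw [dif_pos i.2]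
  have hout : ∀ u y i (hi : ¬ p i), glue u y i = y ⟨i, hi⟩ := by
    intro u y i hi
    simp only [hglue, he, Equiv.piEquivPiSubtypeProd_symm_apply]
    rw [dif_neg hi]
  have houte : ∀ u u' y i, i ∉ R → glue u y i = glue u' y i := by
    intro u u' y i hi
    rw [hout u y i hi, hout u' y i hi]
  have hcard : Fintype.card {i // p i} = R.card := Fintype.card_coe R
  set bd : ℝ := (4 * v - 1) * δ / (1 + (4 * v - 1) * δ) + 3 * Real.sqrt (ε * (L / y₀)) +
    10 * (L / y₀) with hbd
  have hb1 : 0 ≤ (4 * v - 1) * δ / (1 + (4 * v - 1) * δ) := by positivity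
  set W := univ.filter fun x : Fin n → Fin k → Bool => ∀ i ∈ R, x i (s i x) = true with hW
  -- the densities
  set F' : {i // p i} → {i // p i} → Prop := fun i j => F i.1 j.1 with hF'
  have hcount : ∀ (P : Fin n → Fin n → Prop) [DecidableRel P],
      (univ.filter fun q : {i // p i} × {i // p i} => P q.1.1 q.2.1).card =
        ((R ×ˢ R).filter fun q => P q.1 q.2).card := by
    intro P _
    refine Finset.card_bij (fun q _ => (q.1.1, q.2.1)) ?_ ?_ ?_
    · intro q hq
      rw [Finset.mem_filter] at hq ⊢
      exact ⟨Finset.mem_product.2 ⟨q.1.2, q.2.2⟩, hq.2⟩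
    · intro q _ q' _ h
      exact Prod.ext (Subtype.ext (congrArg Prod.fst h)) (Subtype.ext (congrArg Prod.snd h))
    · intro q hq
      rw [Finset.mem_filter, Finset.mem_product] at hq
      exact ⟨(⟨q.1, hq.1.1⟩, ⟨q.2, hq.1.2⟩), Finset.mem_filter.2 ⟨Finset.mem_univ _, hq.2⟩, rfl⟩
  have hBsum : (∑ i : {i // p i}, ∑ j : {i // p i},
      if i ≠ j ∧ ¬ F' i j then Real.log (r i.1 j.1) else 0) / (R.card : ℝ) ^ 2 ≤ L := by
    have e1 : (∑ i : {i // p i}, ∑ j : {i // p i},
        if i ≠ j ∧ ¬ F' i j then Real.log (r i.1 j.1) else 0) =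
        ∑ q ∈ (R ×ˢ R).filter fun q => q.1 ≠ q.2 ∧ ¬ F q.1 q.2, Real.log (r q.1 q.2) := by
      rw [← Finset.sum_product', Finset.univ_product_univ, ← Finset.sum_filter]
      refine Finset.sum_bij (fun q _ => (q.1.1, q.2.1)) ?_ ?_ ?_ ?_
      · intro q hq
        rw [Finset.mem_filter] at hq ⊢
        exact ⟨Finset.mem_product.2 ⟨q.1.2, q.2.2⟩,
          fun hc => hq.2.1 (Subtype.ext hc), hq.2.2⟩
      · intro q _ q' _ h
        exact Prod.ext (Subtype.ext (congrArg Prod.fst h)) (Subtype.ext (congrArg Prod.snd h))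
      · intro q hq
        rw [Finset.mem_filter, Finset.mem_product] at hq
        exact ⟨(⟨q.1, hq.1.1⟩, ⟨q.2, hq.1.2⟩), Finset.mem_filter.2 ⟨Finset.mem_univ _,
          fun hc => hq.2.1 (congrArg Subtype.val hc), hq.2.2⟩, rfl⟩
      · intro q _
        rfl
    rw [e1, ← hB]
    linarith
  -- one position outside the group
  have hone : ∀ y : {i // ¬ p i} → Fin k → Bool,
      ((univ.filter fun u : {i // p i} → Fin k → Bool => glue u y ∈ W).card : ℝ) ≤
        bd * (2 ^ k) ^ R.card := by
    intro y
    set f : {i // p i} → ({i // p i} → Fin k → Bool) → Fin k :=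
      fun i u => s i.1 (glue u y) with hf
    set g' : ∀ i j : {i // p i}, (Fin k → Bool) → Fin (r i.1 j.1) :=
      fun i j z => g i.1 j.1 (glue (fun _ => z) y) with hg'
    have hgg : ∀ u (i j : {i // p i}), g i.1 j.1 (glue u y) = g' i j (u j) := by
      intro u i j
      refine hg i.1 i.2 j.1 j.2 _ _ (fun l hl => houte _ _ y l hl) ?_
      rw [hin, hin]
    have h1 : ∀ i x z, f i (Function.update x i z) = f i x := by
      intro i x z
      have hne : ∀ j : {i // p i}, j.1 ≠ i.1 → Function.update x i z j = x j := fun j hj =>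
        Function.update_of_ne (fun hc => hj (congrArg Subtype.val hc)) _ _
      refine hs i.1 i.2 _ _ (fun l hl => houte _ _ y l hl) (fun j hj hji _ => ?_)
        fun j hj hji _ => ?_
      · rw [hin _ y ⟨j, hj⟩, hin _ y ⟨j, hj⟩]
        exact hne ⟨j, hj⟩ hji
      · rw [hgg _ i ⟨j, hj⟩, hgg _ i ⟨j, hj⟩, hne ⟨j, hj⟩ hji]
    have h2 : ∀ i j, i ≠ j → ¬ F' i j → ∀ x z z', g' i j z = g' i j z' →
        f i (Function.update x j z) = f i (Function.update x j z') := by
      intro i j _ hFij x z z' hz
      have hne : ∀ l : {i // p i}, l ≠ j → Function.update x j z l =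
          Function.update x j z' l := by
        intro l hl
        rw [Function.update_of_ne hl, Function.update_of_ne hl]
      refine hs i.1 i.2 _ _ (fun l hl => houte _ _ y l hl) (fun l hl hli hFl => ?_)
        fun l hl hli hFl => ?_
      · rw [hin _ y ⟨l, hl⟩, hin _ y ⟨l, hl⟩]
        refine hne ⟨l, hl⟩ fun hc => hFij ?_
        rw [← hc]
        exact hFl
      · rw [hgg _ i ⟨l, hl⟩, hgg _ i ⟨l, hl⟩]
        by_cases hlj : (⟨l, hl⟩ : {i // p i}) = j
        · subst hlj
          rw [Function.update_self, Function.update_self, hz]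
        · rw [hne ⟨l, hl⟩ hlj]
    have hav : av (fun x : {i // p i} → Fin k → Bool =>
        if ∀ i, x i (f i x) = true then (1 : ℝ) else 0) ≤ bd := by
      rcases le_or_gt y₀ (10 * L) with hcase | hcase
      · have h3 : av (fun x : {i // p i} → Fin k → Bool =>
            if ∀ i, x i (f i x) = true then (1 : ℝ) else 0) ≤ 1 := by
          calc _ ≤ av (fun _ : {i // p i} → Fin k → Bool => (1 : ℝ)) :=
                av_le fun x => by split_ifs <;> norm_num
            _ = 1 := av_const _
        have h4 : 1 ≤ 10 * (L / y₀) := by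
          rw [← mul_div_assoc, le_div_iff₀ hy0]
          linarith
        have h5 : 0 ≤ 3 * Real.sqrt (ε * (L / y₀)) := by positivity
        linarith
      · obtain ⟨h, hh, lam, hlam, hnum⟩ := numeric R.card L ε y₀ hy₀ hL1 hcase hε0
        have h3 := group_bound h hh (by rw [hcard]; omega)
          (4 * v - 1) hc0 hc F' f (fun i j => r i.1 j.1) g' h1 h2 R.card L δ ε (by rw [hcard])
          (by linarith) hBsum
          (by rw [hδ, ← hcount (fun a b => a ≠ b ∧ F a b ∧ F b a)]
              congr 3
              refine Finset.filter_congr fun q _ => ?_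
              simp only [hF', ne_eq, Subtype.ext_iff])
          (by rw [hε, ← hcount (fun a b => ¬ (F a b ↔ F b a))])
          lam hlam
        linarith
    have hcu : (Fintype.card ({i // p i} → Fin k → Bool) : ℝ) = (2 ^ k) ^ R.card := by
      rw [Fintype.card_fun, Fintype.card_fun, hcard, Fintype.card_bool, Fintype.card_fin]
      push_cast
      rfl
    have hpos : (0 : ℝ) < (2 ^ k) ^ R.card := by positivity
    have h5 : ((univ.filter fun u : {i // p i} → Fin k → Bool => glue u y ∈ W).card : ℝ) =
        ∑ x : {i // p i} → Fin k → Bool,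
          (if ∀ i, x i (f i x) = true then (1 : ℝ) else 0) := by
      rw [Finset.sum_boole]
      congr 2
      refine Finset.filter_congr fun u _ => ?_
      simp only [Finset.mem_filter, Finset.mem_univ, true_and, hW]
      constructor
      · intro h i
        have h6 := h i.1 i.2
        rw [hin] at h6
        exact h6
      · intro h i hi
        have h6 := h ⟨i, hi⟩
        have h7 := hin u y ⟨i, hi⟩
        simp only at h7
        rw [h7]
        exact h6
    rw [h5]
    simp only [av] at hav
    rw [hcu, div_le_iff₀ hpos] at hav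
    exact hav
  -- sum over the positions outside the group
  have hsum : W.card = ∑ y : {i // ¬ p i} → Fin k → Bool,
      (univ.filter fun u : {i // p i} → Fin k → Bool => glue u y ∈ W).card := by
    have h1 := Finset.card_eq_sum_card_fiberwise (s := W)
      (t := (univ : Finset ({i // ¬ p i} → Fin k → Bool))) (f := fun x => (e x).2)
      (fun _ _ => Finset.mem_univ _)
    rw [h1]
    refine Finset.sum_congr rfl fun y _ => ?_
    symm
    refine Finset.card_bij' (fun u _ => glue u y) (fun x _ => (e x).1) ?_ ?_ ?_ ?_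
    · intro u hu
      rw [Finset.mem_filter] at hu ⊢
      refine ⟨hu.2, ?_⟩
      simp only [hglue, Equiv.apply_symm_apply]
    · intro x hx
      rw [Finset.mem_filter] at hx ⊢
      refine ⟨Finset.mem_univ _, ?_⟩
      have h2 : glue (e x).1 y = x := by
        rw [← hx.2]
        simp only [hglue, Prod.mk.eta, Equiv.symm_apply_apply]
      rw [h2]
      exact hx.1
    · intro u hu
      simp only [hglue, Equiv.apply_symm_apply]
    · intro x hx
      rw [Finset.mem_filter] at hx
      rw [← hx.2]
      simp only [hglue, Prod.mk.eta, Equiv.symm_apply_apply]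
  rw [hsum]
  push_cast
  refine (Finset.sum_le_sum fun y _ => hone y).trans (le_of_eq ?_)
  have hc2 : Fintype.card {i // ¬ p i} = n - R.card := by
    rw [Fintype.card_subtype_compl, Fintype.card_fin, hcard]
  have hRn : R.card ≤ n := by
    have := Finset.card_le_univ R
    rwa [Fintype.card_fin] at this
  rw [Finset.sum_const, Finset.card_univ, nsmul_eq_mul]
  have h3 : Fintype.card ({i // ¬ p i} → Fin k → Bool) = (2 ^ k) ^ (n - R.card) := by
    rw [Fintype.card_fun, Fintype.card_fun, hc2, Fintype.card_bool, Fintype.card_fin]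
  rw [h3]
  push_cast
  have h4 : ((2 : ℝ) ^ k) ^ (n - R.card) * (2 ^ k) ^ R.card = 2 ^ (n * k) := by
    rw [← pow_add, Nat.sub_add_cancel hRn, ← pow_mul, mul_comm k n]
  rw [← h4]
  ring

end Pool.Agent.PS
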