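import Pool.Agent.Lib_MP_d91c53_ps.Core

/-!
# The group bound, assembled
-/

set_option autoImplicit false

namespace Pool.Agent.PS

open Finset

variable {κ : Type*} [Fintype κ] [DecidableEq κ]
variable {ι : Type*} [Fintype ι] [DecidableEq ι]

/-- The hats named with probability at least `1 / h`. -/
noncomputable def Hv (h : ℕ) (f : (ι → κ → Bool) → κ) : Finset κ :=
  univ.filter fun b => (1 : ℝ) / h ≤ av (fun x => if f x = b then (1 : ℝ) else 0)

lemma Hv_card (h : ℕ) (hh : 0 < h) (f : (ι → κ → Bool) → κ) : (Hv h f).card ≤ h := by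
  have hh0 : (0 : ℝ) < h := by exact_mod_cast hh
  have h1 : ((Hv h f).card : ℝ) * (1 / h) ≤ 1 := by
    calc ((Hv h f).card : ℝ) * (1 / h) = ∑ _b ∈ Hv h f, (1 : ℝ) / h := by
          rw [Finset.sum_const, nsmul_eq_mul]
      _ ≤ ∑ b ∈ Hv h f, av (fun x => if f x = b then (1 : ℝ) else 0) :=
          Finset.sum_le_sum fun b hb => (Finset.mem_filter.1 hb).2
      _ ≤ ∑ b, av (fun x => if f x = b then (1 : ℝ) else 0) :=
          Finset.sum_le_sum_of_subset_of_nonneg (Finset.subset_univ _) fun b _ _ =>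
            av_nonneg fun x => by split_ifs <;> norm_num
      _ = av (fun _ : ι → κ → Bool => (1 : ℝ)) := by
          rw [← av_sum]
          congr 1
          funext x
          simp
      _ = 1 := av_const _
  have h2 : ((Hv h f).card : ℝ) ≤ h := by
    rw [mul_one_div, div_le_one hh0] at h1
    exact h1
  exact_mod_cast h2

lemma Hv_not (h : ℕ) (f : (ι → κ → Bool) → κ) (b : κ) (hb : b ∉ Hv h f) :
    av (fun x => if f x = b then (1 : ℝ) else 0) ≤ 1 / h := by
  by_contra hc
  exact hb (Finset.mem_filter.2 ⟨Finset.mem_univ _, (not_le.1 hc).le⟩)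

/-- The group bound. `F i j` says that `i` sees the stack of `j` in full. -/
theorem group_bound (h : ℕ) (hh : 0 < h) (hι : 0 < Fintype.card ι)
    (c : ℝ) (hc0 : 0 ≤ c)
    (hc : ∀ f f' : (κ → Bool) → κ,
      av (fun z : κ → Bool => av (fun w : κ → Bool => sg (z (f w)) * sg (w (f' z)))) ≤ c)
    (F : ι → ι → Prop) [DecidableRel F]
    (f : ι → (ι → κ → Bool) → κ) (r : ι → ι → ℕ) (g : ∀ i j : ι, (κ → Bool) → Fin (r i j))
    (h1 : ∀ i x z, f i (Function.update x i z) = f i x)
    (h2 : ∀ i j, i ≠ j → ¬ F i j → ∀ x z z', g i j z = g i j z' →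
      f i (Function.update x j z) = f i (Function.update x j z'))
    (m L δ ε : ℝ) (hm : m = Fintype.card ι) (hL : 0 < L)
    (hLr : (∑ i, ∑ j, if i ≠ j ∧ ¬ F i j then Real.log (r i j) else 0) / m ^ 2 ≤ L)
    (hδ : δ = ((univ.filter fun p : ι × ι => p.1 ≠ p.2 ∧ F p.1 p.2 ∧ F p.2 p.1).card : ℝ) /
      m ^ 2)
    (hε : ε = ((univ.filter fun p : ι × ι => ¬ (F p.1 p.2 ↔ F p.2 p.1)).card : ℝ) / m ^ 2)
    (lam : ℝ) (hlam : 0 < lam) :
    av (fun x : ι → κ → Bool => if ∀ i, x i (f i x) = true then (1 : ℝ) else 0) ≤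
      c * δ / (1 + c * δ) + (2 ^ h / m + ε / (2 * lam) +
        (1 + lam) * (2 * L / h + Real.sqrt (2 * L * 2 ^ h / m)) + 2 * Real.sqrt (2 ^ h / m)) := by
  have hm0 : 0 < m := by rw [hm]; exact_mod_cast hι
  have hh0 : (0 : ℝ) < h := by exact_mod_cast hh
  have hδ0 : 0 ≤ δ := by rw [hδ]; positivity
  have hε0 : 0 ≤ ε := by rw [hε]; positivity
  set H : ι → Finset κ := fun i => Hv h (f i) with hH
  have hHc : ∀ i, (H i).card ≤ h := fun i => Hv_card h hh (f i)
  set J₀ : ℝ := 2 * L / h + Real.sqrt (2 * L * 2 ^ h / m) with hJ₀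
  have hJ₀0 : 0 < J₀ := by positivity
  -- the terms of the second moment
  set t : ι → ι → ℝ := fun i j => av (fun x : ι → κ → Bool => D (H i) (x i) * D (H j) (x j) *
      (M (H i) (f i x) (x i) * M (H j) (f j x) (x j))) with ht
  set G : ι → ι → ℝ := fun i j => if i ≠ j ∧ ¬ F i j then
      av (fun x : ι → κ → Bool => D (H i) (x i) * V (H j) (g i j) (f j x)) else 0 with hG
  have hG0 : ∀ i j, 0 ≤ G i j := by
    intro i j
    simp only [hG]
    split_ifs
    · exact av_nonneg fun x => mul_nonneg (D_nonneg _ _) (V_nonneg _ _ _)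
    · exact le_refl _
  have htsymm : ∀ i j, t i j = t j i := by
    intro i j
    simp only [ht]
    congr 1
    funext x
    ring
  -- one direction limited
  have htG : ∀ i j, i ≠ j → ¬ F i j → t i j ≤ lam / 2 * G i j + 1 / (2 * lam) := by
    intro i j hij hF
    have e := limited_pair i j hij (H i) (H j) (f i) (f j) (g i j) (h1 j) (h2 i j hij hF)
      lam hlam
    have e2 : G i j = av (fun x : ι → κ → Bool => D (H i) (x i) * V (H j) (g i j) (f j x)) := by
      simp only [hG, if_pos (And.intro hij hF)]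
    rw [e2]
    refine e.trans (le_of_eq ?_)
    field_simp
  -- both directions limited
  have htG2 : ∀ i j, i ≠ j → ¬ F i j → ¬ F j i → t i j ≤ (G i j + G j i) / 2 := by
    intro i j hij hF hF'
    have e := both_limited_pair i j hij (H i) (H j) (f i) (f j) (g i j) (g j i) (h1 i) (h1 j)
      (h2 i j hij hF) (h2 j i (Ne.symm hij) hF')
    have e2 : G i j = av (fun x : ι → κ → Bool => D (H i) (x i) * V (H j) (g i j) (f j x)) := by
      simp only [hG, if_pos (And.intro hij hF)]
    have e3 : G j i = av (fun x : ι → κ → Bool => D (H j) (x j) * V (H i) (g j i) (f i x)) := by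
      simp only [hG, if_pos (And.intro (Ne.symm hij) hF')]
    rw [e2, e3]
    exact e
  have hterm : ∀ i j, t i j ≤ (if i = j then (2 : ℝ) ^ h else 0) +
      (if i ≠ j ∧ F i j ∧ F j i then c else 0) +
      (if ¬ (F i j ↔ F j i) then 1 / (2 * lam) else 0) +
      (1 + lam) / 2 * (G i j + G j i) := by
    intro i j
    have g1 := hG0 i j
    have g2 := hG0 j i
    have g3 : 0 ≤ (1 + lam) / 2 * (G i j + G j i) := by positivity
    by_cases hij : i = j
    · subst hij
      have hd : t i i ≤ 2 ^ h := by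
        calc t i i ≤ av (fun x : ι → κ → Bool => D (H i) (x i) ^ 2) := by
              refine av_le fun x => ?_
              have e1 := M_sq_le (H i) (f i x) (x i)
              have e2 : 0 ≤ D (H i) (x i) * D (H i) (x i) := mul_self_nonneg _
              calc D (H i) (x i) * D (H i) (x i) * (M (H i) (f i x) (x i) * M (H i) (f i x) (x i))
                  ≤ D (H i) (x i) * D (H i) (x i) * 1 := mul_le_mul_of_nonneg_left e1 e2
                _ = D (H i) (x i) ^ 2 := by ring
          _ = av (fun z => D (H i) z ^ 2) := av_coord i (fun z => D (H i) z ^ 2)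
          _ = 2 ^ (H i).card := av_D_sq _
          _ ≤ 2 ^ h := pow_le_pow_right₀ (by norm_num) (hHc i)
      rw [if_pos rfl, if_neg (fun hc => hc.1 rfl), if_neg (fun hc => hc Iff.rfl)]
      linarith
    · rw [if_neg hij]
      by_cases hF1 : F i j
      · by_cases hF2 : F j i
        · rw [if_pos ⟨hij, hF1, hF2⟩, if_neg (fun hc => hc ⟨fun _ => hF2, fun _ => hF1⟩)]
          have e : t i j ≤ c := two_way_pair c hc i j hij (H i) (H j) (f i) (f j) (h1 i) (h1 j)
          linarith
        · rw [if_neg (fun hc => hF2 hc.2.2), if_pos (fun hc => hF2 (hc.1 hF1))]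
          have e := htG j i (Ne.symm hij) hF2
          rw [htsymm i j]
          nlinarith
      · rw [if_neg (fun hc => hF1 hc.2.1)]
        by_cases hF2 : F j i
        · rw [if_pos (fun hc => hF1 (hc.2 hF2))]
          have e := htG i j hij hF1
          nlinarith
        · rw [if_neg (fun hc => hc ⟨fun h => absurd h hF1, fun h => absurd h hF2⟩)]
          have e := htG2 i j hij hF1 hF2
          nlinarith
  -- the limited pairs
  set Lp : ι → ι → ℝ := fun i j => if i ≠ j ∧ ¬ F i j then Real.log (r i j) else 0 with hLp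
  set η₀ : ℝ := 2 * L * 2 ^ h / m with hη₀
  have hη₀0 : 0 < η₀ := by positivity
  have hGsum : ∀ j, ∑ i, G i j ≤ m * (2 * ((∑ i, Lp i j) / m) / h +
      ((2 * ((∑ i, Lp i j) / m) * 2 ^ h / m) / Real.sqrt η₀ + Real.sqrt η₀) / 2) := by
    intro j
    set Q : ι → κ → ℝ := fun i b => if i ≠ j ∧ ¬ F i j then V (H j) (g i j) b else 0 with hQ
    have hQ0 : ∀ i b, 0 ≤ Q i b := by
      intro i b
      simp only [hQ]
      split_ifs
      · exact V_nonneg _ _ _
      · exact le_refl _
    have hQ1 : ∀ i b, Q i b ≤ 1 := by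
      intro i b
      simp only [hQ]
      split_ifs
      · exact V_le_one _ _ _
      · exact zero_le_one
    have hQs : ∀ i, ∑ b, Q i b ≤ 2 * Lp i j := by
      intro i
      simp only [hQ, hLp]
      split_ifs
      · exact level_log (H j) (g i j)
      · simp
    have hQj : ∀ i, ∀ b ∈ H j, Q i b = 0 := by
      intro i b hb
      simp only [hQ]
      split_ifs
      · exact V_mem (H j) (g i j) b hb
      · rfl
    have hJ := J_bound h hh hι H hHc (H j) (f j) (fun b hb => Hv_not h (f j) b hb) Q hQ0 hQ1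
      (fun i => Lp i j) hQs hQj m ((∑ i, Lp i j) / m) η₀ hm rfl hη₀0
    have e1 : (fun x : ι → κ → Bool => (∑ i, D (H i) (x i) * Q i (f j x)) / m) =
        fun x => (∑ i, D (H i) (x i) * Q i (f j x)) * (1 / m) := by
      funext x
      ring
    rw [e1, av_mul_right, av_sum] at hJ
    have e2 := mul_le_mul_of_nonneg_left hJ hm0.le
    have hGi : ∀ i, G i j = av (fun x : ι → κ → Bool => D (H i) (x i) * Q i (f j x)) := by
      intro i
      by_cases hcj : i ≠ j ∧ ¬ F i j
      · simp only [hG, hQ, if_pos hcj]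
      · simp only [hG, hQ, if_neg hcj, mul_zero]
        exact av_zero.symm
    simp only [hGi]
    refine le_trans (le_of_eq ?_) e2
    field_simp
  have hGtot : ∑ i, ∑ j, G j i ≤ m * (m * J₀) := by
    have b1 : ∑ j, ∑ i, Lp i j ≤ m ^ 2 * L := by
      rw [Finset.sum_comm]
      have := (div_le_iff₀ (by positivity : 0 < m ^ 2)).1 hLr
      linarith
    have b0 : 0 ≤ ∑ j, ∑ i, Lp i j := by
      refine Finset.sum_nonneg fun j _ => Finset.sum_nonneg fun i _ => ?_
      simp only [hLp]
      split_ifs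
      · exact Real.log_natCast_nonneg _
      · exact le_refl _
    have hsη₀ : 0 < Real.sqrt η₀ := Real.sqrt_pos.2 hη₀0
    calc ∑ j, ∑ i, G i j
        ≤ ∑ j, m * (2 * ((∑ i, Lp i j) / m) / h +
          ((2 * ((∑ i, Lp i j) / m) * 2 ^ h / m) / Real.sqrt η₀ + Real.sqrt η₀) / 2) :=
          Finset.sum_le_sum fun j _ => hGsum j
      _ = ∑ j, ((∑ i, Lp i j) * (2 / h + 2 ^ h / m / Real.sqrt η₀) +
          m * (Real.sqrt η₀ / 2)) := by
          refine Finset.sum_congr rfl fun j _ => ?_
          field_simp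
          ring
      _ = (∑ j, ∑ i, Lp i j) * (2 / h + 2 ^ h / m / Real.sqrt η₀) +
          m * (m * (Real.sqrt η₀ / 2)) := by
          rw [Finset.sum_add_distrib, ← Finset.sum_mul, Finset.sum_const, Finset.card_univ,
            nsmul_eq_mul, ← hm]
      _ ≤ (m ^ 2 * L) * (2 / h + 2 ^ h / m / Real.sqrt η₀) + m * (m * (Real.sqrt η₀ / 2)) := by
          gcongr
      _ = m * (m * (2 * L / h + (η₀ / Real.sqrt η₀) / 2 + Real.sqrt η₀ / 2)) := by
          rw [hη₀]
          field_simp
      _ = m * (m * J₀) := by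
          rw [Real.div_sqrt, hJ₀]
          ring
  -- the averages of the named hats and of the weights
  set Y : (ι → κ → Bool) → ℝ :=
    fun x => (∑ i, D (H i) (x i) * M (H i) (f i x) (x i)) / m with hY
  set Sb : (ι → κ → Bool) → ℝ := fun x => (∑ i, D (H i) (x i)) / m with hSb
  have hYmean : av Y = 0 := by
    have e : Y = fun x => (∑ i, D (H i) (x i) * M (H i) (f i x) (x i)) * (1 / m) := by
      funext x
      simp only [hY]
      ring
    rw [e, av_mul_right, av_sum]
    have : ∀ i, av (fun x : ι → κ → Bool => D (H i) (x i) * M (H i) (f i x) (x i)) = 0 :=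
      fun i => mean_zero i (H i) (f i) (h1 i)
    simp only [this, Finset.sum_const_zero, zero_mul]
  have hYsq : av (fun x => Y x ^ 2) ≤
      2 ^ h / m + c * δ + ε / (2 * lam) + (1 + lam) * J₀ := by
    have e : (fun x => Y x ^ 2) = fun x => (∑ i, ∑ j, D (H i) (x i) * D (H j) (x j) *
        (M (H i) (f i x) (x i) * M (H j) (f j x) (x j))) * (1 / m ^ 2) := by
      funext x
      simp only [hY]
      rw [div_pow, pow_two (∑ i, D (H i) (x i) * M (H i) (f i x) (x i)), Finset.sum_mul_sum,
        div_eq_mul_one_div]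
      congr 1
      exact Finset.sum_congr rfl fun i _ => Finset.sum_congr rfl fun j _ => by ring
    rw [e, av_mul_right, av_sum]
    have e2 : ∀ i, av (fun x : ι → κ → Bool => ∑ j, D (H i) (x i) * D (H j) (x j) *
        (M (H i) (f i x) (x i) * M (H j) (f j x) (x j))) = ∑ j, t i j := fun i => av_sum _ _
    simp only [e2]
    have e3 : ∑ i, ∑ j, t i j ≤ m * 2 ^ h + m ^ 2 * (c * δ) + m ^ 2 * (ε / (2 * lam)) +
        (1 + lam) / 2 * (2 * (m * (m * J₀))) := by
      calc ∑ i, ∑ j, t i j
          ≤ ∑ i, ∑ j, ((if i = j then (2 : ℝ) ^ h else 0) +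
            (if i ≠ j ∧ F i j ∧ F j i then c else 0) +
            (if ¬ (F i j ↔ F j i) then 1 / (2 * lam) else 0) +
            (1 + lam) / 2 * (G i j + G j i)) :=
            Finset.sum_le_sum fun i _ => Finset.sum_le_sum fun j _ => hterm i j
        _ = ∑ i : ι, ∑ j : ι, (if i = j then (2 : ℝ) ^ h else 0) +
            ∑ i : ι, ∑ j : ι, (if i ≠ j ∧ F i j ∧ F j i then c else 0) +
            ∑ i : ι, ∑ j : ι, (if ¬ (F i j ↔ F j i) then 1 / (2 * lam) else 0) +
            (1 + lam) / 2 * (∑ i, ∑ j, G i j + ∑ i, ∑ j, G j i) := by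
            simp only [Finset.sum_add_distrib, ← Finset.mul_sum]
        _ ≤ m * 2 ^ h + m ^ 2 * (c * δ) + m ^ 2 * (ε / (2 * lam)) +
            (1 + lam) / 2 * (2 * (m * (m * J₀))) := by
            have a1 : ∑ i : ι, ∑ j : ι, (if i = j then (2 : ℝ) ^ h else 0) = m * 2 ^ h := by
              simp [hm]
            have a2 : ∑ i : ι, ∑ j : ι, (if i ≠ j ∧ F i j ∧ F j i then c else 0) =
                m ^ 2 * (c * δ) := by
              rw [← Finset.sum_product', Finset.univ_product_univ, ← Finset.sum_filter,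
                Finset.sum_const, nsmul_eq_mul, hδ]
              field_simp
            have a2' : ∑ i : ι, ∑ j : ι, (if ¬ (F i j ↔ F j i) then 1 / (2 * lam) else 0) =
                m ^ 2 * (ε / (2 * lam)) := by
              rw [← Finset.sum_product', Finset.univ_product_univ, ← Finset.sum_filter,
                Finset.sum_const, nsmul_eq_mul, hε]
              field_simp
            have a3 : ∑ i, ∑ j, G j i ≤ m * (m * J₀) := hGtot
            have a4 : ∑ i, ∑ j, G i j = ∑ i, ∑ j, G j i := Finset.sum_comm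
            rw [a1, a2, a2', a4]
            have a5 : (1 + lam) / 2 * (∑ i, ∑ j, G j i + ∑ i, ∑ j, G j i) ≤
                (1 + lam) / 2 * (2 * (m * (m * J₀))) :=
              mul_le_mul_of_nonneg_left (by linarith) (by positivity)
            linarith
    calc (∑ i, ∑ j, t i j) * (1 / m ^ 2)
        ≤ (m * 2 ^ h + m ^ 2 * (c * δ) + m ^ 2 * (ε / (2 * lam)) +
            (1 + lam) / 2 * (2 * (m * (m * J₀)))) * (1 / m ^ 2) :=
          mul_le_mul_of_nonneg_right e3 (by positivity)
      _ = 2 ^ h / m + c * δ + ε / (2 * lam) + (1 + lam) * J₀ := by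
          field_simp
  have hSvar : av (fun x => (Sb x - 1) ^ 2) ≤ 2 ^ h / m := by
    have e : (fun x => (Sb x - 1) ^ 2) =
        fun x : ι → κ → Bool => (∑ i, (D (H i) (x i) - 1) / m) ^ 2 := by
      funext x
      congr 1
      simp only [hSb]
      rw [← Finset.sum_div, Finset.sum_sub_distrib, sub_div]
      congr 1
      rw [Finset.sum_const, Finset.card_univ, nsmul_eq_mul, mul_one, ← hm, div_self hm0.ne']
    rw [e, av_sq_sum (fun i z => (D (H i) z - 1) / m) (fun i => by
      have e2 : (fun z => (D (H i) z - 1) / m) = fun z => (D (H i) z - 1) * (1 / m) := by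
        funext z
        ring
      rw [e2, av_mul_right, av_D_sub_one, zero_mul])]
    calc ∑ i, av (fun z => ((D (H i) z - 1) / m) ^ 2)
        ≤ ∑ _i : ι, 2 ^ h * (1 / m ^ 2) := by
          refine Finset.sum_le_sum fun i _ => ?_
          have e2 : (fun z => ((D (H i) z - 1) / m) ^ 2) =
              fun z => (D (H i) z - 1) ^ 2 * (1 / m ^ 2) := by
            funext z
            ring
          rw [e2, av_mul_right]
          exact mul_le_mul_of_nonneg_right (av_D_sub_one_sq (H i) h (hHc i)) (by positivity)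
      _ = 2 ^ h / m := by
          rw [Finset.sum_const, Finset.card_univ, nsmul_eq_mul, ← hm]
          field_simp
  set η : ℝ := 2 ^ h / m with hη
  have hη0 : 0 < η := by positivity
  have hsη : 0 < Real.sqrt η := Real.sqrt_pos.2 hη0
  -- Cantelli's inequality
  set a : ℝ := c * δ with ha
  have ha0 : 0 ≤ a := by positivity
  set W : (ι → κ → Bool) → ℝ :=
    fun x => if ∀ i, x i (f i x) = true then (1 : ℝ) else 0 with hW
  have hpoint : ∀ x, (1 + a) ^ 2 * W x ≤ (Y x ^ 2 + 2 * a * Y x + a ^ 2) +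
      (1 + a) * ((Sb x - 1) ^ 2 * (1 / Real.sqrt η) + Real.sqrt η) := by
    intro x
    have e1 := le_half (1 - Sb x) η hη0
    have e2 : 2 * (1 - Sb x) ≤ (Sb x - 1) ^ 2 * (1 / Real.sqrt η) + Real.sqrt η := by
      have e3 : (1 - Sb x) ^ 2 = (Sb x - 1) ^ 2 := by ring
      rw [e3] at e1
      have e4 : (Sb x - 1) ^ 2 * (1 / Real.sqrt η) = (Sb x - 1) ^ 2 / Real.sqrt η := by ring
      rw [e4]
      linarith
    have e5 : 0 ≤ (Sb x - 1) ^ 2 * (1 / Real.sqrt η) + Real.sqrt η := by positivity
    simp only [hW]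
    split_ifs with hx
    · have e6 : Y x = Sb x := by
        simp only [hY, hSb]
        congr 1
        exact Finset.sum_congr rfl fun i _ => D_mul_M (H i) (f i x) (x i) (hx i)
      rw [e6]
      nlinarith [mul_le_mul_of_nonneg_left e2 (by linarith : (0 : ℝ) ≤ 1 + a),
        sq_nonneg (Sb x - 1)]
    · have e7 : 0 ≤ (1 + a) * ((Sb x - 1) ^ 2 * (1 / Real.sqrt η) + Real.sqrt η) :=
        mul_nonneg (by linarith) e5
      nlinarith [sq_nonneg (Y x + a)]
  have hav := av_le hpoint
  have e1 : av (fun x => (Y x ^ 2 + 2 * a * Y x + a ^ 2) +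
      (1 + a) * ((Sb x - 1) ^ 2 * (1 / Real.sqrt η) + Real.sqrt η)) =
      (av (fun x => Y x ^ 2) + 2 * a * av Y + a ^ 2) +
      (1 + a) * (av (fun x => (Sb x - 1) ^ 2) * (1 / Real.sqrt η) + Real.sqrt η) := by
    rw [av_add, av_add, av_add, av_mul_left, av_const, av_mul_left, av_add, av_mul_right,
      av_const]
  rw [e1, av_mul_left, hYmean] at hav
  have e2 : av (fun x => (Sb x - 1) ^ 2) * (1 / Real.sqrt η) + Real.sqrt η ≤
      2 * Real.sqrt η := by
    have : av (fun x => (Sb x - 1) ^ 2) * (1 / Real.sqrt η) ≤ η * (1 / Real.sqrt η) :=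
      mul_le_mul_of_nonneg_right hSvar (by positivity)
    have e3 : η * (1 / Real.sqrt η) = Real.sqrt η := by
      rw [← div_eq_mul_one_div, Real.div_sqrt]
    linarith
  set X : ℝ := η + ε / (2 * lam) + (1 + lam) * J₀ with hX
  have hX0 : 0 ≤ X := by positivity
  have e3 : (1 + a) ^ 2 * av W ≤ (a + a ^ 2) + X + (1 + a) * (2 * Real.sqrt η) := by
    have e4 := mul_le_mul_of_nonneg_left e2 (by linarith : (0 : ℝ) ≤ 1 + a)
    linarith
  have e4 : (1 + a) ^ 2 * av W ≤ (1 + a) ^ 2 * (a / (1 + a) + (X + 2 * Real.sqrt η)) := by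
    have e5 : (1 + a) ^ 2 * (a / (1 + a)) = a + a ^ 2 := by
      field_simp
    rw [mul_add, e5]
    have e6 : X ≤ (1 + a) ^ 2 * X := by
      have : (1 : ℝ) ≤ (1 + a) ^ 2 := by nlinarith
      nlinarith [mul_le_mul_of_nonneg_right this hX0]
    have e7 : (1 + a) * (2 * Real.sqrt η) ≤ (1 + a) ^ 2 * (2 * Real.sqrt η) := by
      have : (1 + a : ℝ) ≤ (1 + a) ^ 2 := by nlinarith
      exact mul_le_mul_of_nonneg_right this (by positivity)
    linarith
  have e5 : av W ≤ a / (1 + a) + (X + 2 * Real.sqrt η) :=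
    le_of_mul_le_mul_left e4 (by positivity)
  exact e5

end Pool.Agent.PS
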