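import Pool.Agent.Lib_MP_d91c53_ps.Avg

/-!
# Level one inequalities

What a signal with `r` values, or a partition of the cube, tells about single hats.
-/

set_option autoImplicit false

namespace Pool.Agent.PS

open Finset

section Factor

variable {Z : Type*} [Fintype Z]

lemma av_split {r : ℕ} (g : Z → Fin r) (F : Z → ℝ) :
    av F = ∑ c, av (fun z => F z * (if g z = c then 1 else 0)) := by
  rw [← av_sum]
  congr 1
  funext z
  simp

/-- A function of the signal is at best the sign of the correlation. -/
lemma factor_bound {r : ℕ} (g : Z → Fin r) (w φ : Z → ℝ)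
    (hφ : ∀ z z', g z = g z' → φ z = φ z') (h1 : ∀ z, |φ z| ≤ 1) :
    av (fun z => w z * φ z) ≤ ∑ c, |av (fun z => w z * (if g z = c then 1 else 0))| := by
  rw [av_split g]
  refine Finset.sum_le_sum fun c _ => ?_
  by_cases hc : ∃ z₀, g z₀ = c
  · obtain ⟨z₀, hz⟩ := hc
    have e : (fun z => w z * φ z * (if g z = c then 1 else 0)) =
        fun z => φ z₀ * (w z * (if g z = c then 1 else 0)) := by
      funext z
      split_ifs with h
      · rw [hφ z z₀ (h.trans hz.symm)]; ring
      · simp
    rw [e, av_mul_left]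
    calc φ z₀ * av (fun z => w z * (if g z = c then 1 else 0))
        ≤ |φ z₀ * av (fun z => w z * (if g z = c then 1 else 0))| := le_abs_self _
      _ = |φ z₀| * |av (fun z => w z * (if g z = c then 1 else 0))| := abs_mul _ _
      _ ≤ 1 * |av (fun z => w z * (if g z = c then 1 else 0))| :=
          mul_le_mul_of_nonneg_right (h1 z₀) (abs_nonneg _)
      _ = _ := one_mul _
  · have e : (fun z => w z * φ z * (if g z = c then (1 : ℝ) else 0)) = fun _ => 0 := by
      funext z
      rw [if_neg (fun h => hc ⟨z, h⟩), mul_zero]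
    rw [e, av_zero]
    exact abs_nonneg _

end Factor

variable {κ : Type*} [Fintype κ] [DecidableEq κ]

/-- The sign of the named hat, `0` if the hat is in `H`. -/
noncomputable def M (H : Finset κ) (b : κ) (z : κ → Bool) : ℝ := if b ∈ H then 0 else sg (z b)

omit [Fintype κ] in
lemma abs_M_le (H : Finset κ) (b : κ) (z : κ → Bool) : |M H b z| ≤ 1 := by
  unfold M
  split_ifs
  · simp
  · rw [abs_sg]

omit [Fintype κ] in
lemma M_sq_le (H : Finset κ) (b : κ) (z : κ → Bool) : M H b z * M H b z ≤ 1 := by
  have h := abs_M_le H b z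
  rw [abs_le] at h
  nlinarith [h.1, h.2]

/-- The weight of a class of the signal `g`. -/
noncomputable def pc {r : ℕ} (H : Finset κ) (g : (κ → Bool) → Fin r) (c : Fin r) : ℝ :=
  av (fun z => D H z * (if g z = c then 1 else 0))

/-- The mean of the sign of the hat `b` on a class of the signal `g`. -/
noncomputable def ec {r : ℕ} (H : Finset κ) (g : (κ → Bool) → Fin r) (c : Fin r) (b : κ) : ℝ :=
  av (fun z => D H z * M H b z * (if g z = c then 1 else 0))

lemma pc_nonneg {r : ℕ} (H : Finset κ) (g : (κ → Bool) → Fin r) (c : Fin r) : 0 ≤ pc H g c :=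
  av_nonneg fun z => mul_nonneg (D_nonneg H z) (by split_ifs <;> norm_num)

lemma pc_sum {r : ℕ} (H : Finset κ) (g : (κ → Bool) → Fin r) : ∑ c, pc H g c = 1 := by
  unfold pc
  rw [← av_split g (D H), av_D]

lemma abs_ec_le {r : ℕ} (H : Finset κ) (g : (κ → Bool) → Fin r) (c : Fin r) (b : κ) :
    |ec H g c b| ≤ pc H g c := by
  unfold ec pc
  refine (av_abs_le _).trans (av_le fun z => ?_)
  rw [abs_mul, abs_mul, abs_of_nonneg (D_nonneg H z)]
  have h1 := abs_M_le H b z
  have h2 := D_nonneg H z
  split_ifs
  · rw [abs_one, mul_one, mul_one]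
    calc D H z * |M H b z| ≤ D H z * 1 := mul_le_mul_of_nonneg_left h1 h2
      _ = D H z := mul_one _
  · simp

lemma ec_mem {r : ℕ} (H : Finset κ) (g : (κ → Bool) → Fin r) (c : Fin r) (b : κ) (hb : b ∈ H) :
    ec H g c b = 0 := by
  unfold ec
  simp only [M, if_pos hb, mul_zero, zero_mul]
  exact av_zero

/-- What the signal `g` tells about the hat `b`. -/
noncomputable def V {r : ℕ} (H : Finset κ) (g : (κ → Bool) → Fin r) (b : κ) : ℝ :=
  ∑ c, ec H g c b ^ 2 / pc H g c

lemma V_nonneg {r : ℕ} (H : Finset κ) (g : (κ → Bool) → Fin r) (b : κ) : 0 ≤ V H g b :=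
  Finset.sum_nonneg fun c _ => div_nonneg (sq_nonneg _) (pc_nonneg H g c)

lemma V_mem {r : ℕ} (H : Finset κ) (g : (κ → Bool) → Fin r) (b : κ) (hb : b ∈ H) :
    V H g b = 0 := by
  unfold V
  refine Finset.sum_eq_zero fun c _ => ?_
  rw [ec_mem H g c b hb]
  simp

lemma V_le_one {r : ℕ} (H : Finset κ) (g : (κ → Bool) → Fin r) (b : κ) : V H g b ≤ 1 := by
  rw [← pc_sum H g]
  unfold V
  refine Finset.sum_le_sum fun c _ => ?_
  have h1 := abs_ec_le H g c b
  have h2 := pc_nonneg H g c
  rcases h2.eq_or_lt with h | h
  · rw [← h]; simp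
  · rw [div_le_iff₀ h, ← sq_abs]
    nlinarith [abs_nonneg (ec H g c b)]

/-- AM-GM for one class. -/
lemma abs_ec_le_amgm {r : ℕ} (H : Finset κ) (g : (κ → Bool) → Fin r) (c : Fin r) (b : κ)
    (lam : ℝ) (hlam : 0 < lam) :
    |ec H g c b| ≤ (lam * (ec H g c b ^ 2 / pc H g c) + pc H g c / lam) / 2 := by
  have h1 := abs_ec_le H g c b
  have h2 := pc_nonneg H g c
  rcases h2.eq_or_lt with h | h
  · rw [← h] at h1 ⊢
    simp only [div_zero, mul_zero, zero_div, add_zero]
    exact h1
  · rw [← sq_abs]
    set e := |ec H g c b|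
    set q := pc H g c
    have h3 : (lam * (e ^ 2 / q) + q / lam) / 2 - e = (lam * e - q) ^ 2 / (2 * lam * q) := by
      field_simp
      ring
    have h4 : 0 ≤ (lam * e - q) ^ 2 / (2 * lam * q) := by positivity
    linarith

/-- AM-GM for two classes. -/
lemma ec_mul_ec_le {r r' : ℕ} (H H' : Finset κ) (g : (κ → Bool) → Fin r)
    (g' : (κ → Bool) → Fin r') (c : Fin r) (c' : Fin r') (b b' : κ) :
    ec H g c b * ec H' g' c' b' ≤
      (pc H' g' c' * (ec H g c b ^ 2 / pc H g c) +
        pc H g c * (ec H' g' c' b' ^ 2 / pc H' g' c')) / 2 := by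
  have h1 := abs_ec_le H g c b
  have h2 := pc_nonneg H g c
  have h1' := abs_ec_le H' g' c' b'
  have h2' := pc_nonneg H' g' c'
  rcases h2.eq_or_lt with h | h
  · rw [← h] at h1 ⊢
    have : ec H g c b = 0 := abs_eq_zero.1 (le_antisymm h1 (abs_nonneg _))
    rw [this]
    simp
  · rcases h2'.eq_or_lt with h' | h'
    · rw [← h'] at h1' ⊢
      have : ec H' g' c' b' = 0 := abs_eq_zero.1 (le_antisymm h1' (abs_nonneg _))
      rw [this]
      simp
    · set e := ec H g c b
      set q := pc H g c
      set e' := ec H' g' c' b'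
      set q' := pc H' g' c'
      have h3 : (q' * (e ^ 2 / q) + q * (e' ^ 2 / q')) / 2 - e * e' =
          (q' * e - q * e') ^ 2 / (2 * q * q') := by
        field_simp
        ring
      have h4 : 0 ≤ (q' * e - q * e') ^ 2 / (2 * q * q') := by positivity
      linarith

/-- The level one inequality for a signal with `r` values. -/
theorem level_log {r : ℕ} (H : Finset κ) (g : (κ → Bool) → Fin r) :
    ∑ b, V H g b ≤ 2 * Real.log r := by
  set v : Fin r → κ → ℝ := fun c b => ec H g c b / pc H g c with hv
  have hvH : ∀ c, ∀ b ∈ H, v c b = 0 := by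
    intro c b hb
    simp only [hv, ec_mem H g c b hb, zero_div]
  set S : ℝ := ∑ b, V H g b with hS
  set G : (κ → Bool) → ℝ :=
    fun z => ∑ b, (v (g z) b * M H b (z) - v (g z) b ^ 2 / 2) with hG
  set A : ℝ := av (fun z => D H z * G z) with hA
  have hA1 : A = S / 2 := by
    have e1 : (fun z => D H z * G z) =
        fun z => ∑ b, D H z * (v (g z) b * M H b z - v (g z) b ^ 2 / 2) := by
      funext z
      simp only [hG]
      rw [Finset.mul_sum]
    rw [hA, e1, av_sum, hS, Finset.sum_div]
    refine Finset.sum_congr rfl fun b _ => ?_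
    rw [av_split g]
    unfold V
    rw [Finset.sum_div]
    refine Finset.sum_congr rfl fun c _ => ?_
    have e2 : (fun z => D H z * (v (g z) b * M H b z - v (g z) b ^ 2 / 2) *
        (if g z = c then (1 : ℝ) else 0)) =
        fun z => v c b * (D H z * M H b z * (if g z = c then 1 else 0)) -
          (v c b ^ 2 / 2) * (D H z * (if g z = c then 1 else 0)) := by
      funext z
      split_ifs with h
      · rw [h]; ring
      · ring
    rw [e2, av_sub, av_mul_left, av_mul_left]
    have e3 : av (fun z => D H z * M H b z * (if g z = c then 1 else 0)) = ec H g c b := rfl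
    have e4 : av (fun z => D H z * (if g z = c then 1 else 0)) = pc H g c := rfl
    rw [e3, e4]
    simp only [hv]
    rcases (pc_nonneg H g c).eq_or_lt with h | h
    · rw [← h]; simp
    · field_simp
      ring
  have hGc : ∀ c, av (fun z => D H z *
      Real.exp (∑ b, (v c b * M H b z - v c b ^ 2 / 2))) ≤ 1 := by
    intro c
    have e1 : (fun z => D H z * Real.exp (∑ b, (v c b * M H b z - v c b ^ 2 / 2))) =
        fun z => (D H z * Real.exp (∑ b, v c b * sg (z b))) *
          Real.exp (- ((∑ b, v c b ^ 2) / 2)) := by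
      funext z
      rw [Finset.sum_sub_distrib, sub_eq_add_neg, Real.exp_add, Finset.sum_div, ← mul_assoc]
      congr 3
      refine Finset.sum_congr rfl fun b _ => ?_
      by_cases hb : b ∈ H
      · rw [hvH c b hb]; ring
      · unfold M
        rw [if_neg hb]
    rw [e1, av_mul_right]
    calc av (fun z => D H z * Real.exp (∑ b, v c b * sg (z b))) *
          Real.exp (- ((∑ b, v c b ^ 2) / 2))
        ≤ Real.exp ((∑ b, v c b ^ 2) / 2) * Real.exp (- ((∑ b, v c b ^ 2) / 2)) :=
          mul_le_mul_of_nonneg_right (av_D_exp H _ (hvH c)) (Real.exp_pos _).le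
      _ = 1 := by rw [← Real.exp_add]; simp
  have hupper : av (fun z => D H z * Real.exp (G z)) ≤ r := by
    rw [av_split g]
    calc ∑ c, av (fun z => D H z * Real.exp (G z) * (if g z = c then 1 else 0))
        ≤ ∑ _c : Fin r, (1 : ℝ) := by
          refine Finset.sum_le_sum fun c _ => (av_le fun z => ?_).trans (hGc c)
          have hD := D_nonneg H z
          split_ifs with h
          · simp only [hG, h, mul_one]
            exact le_refl _
          · rw [mul_zero]
            positivity
      _ = r := by simp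
  have hlower : Real.exp A ≤ av (fun z => D H z * Real.exp (G z)) := by
    have h1 : av (fun z => Real.exp A * (D H z * G z) + Real.exp A * (1 - A) * D H z) ≤
        av (fun z => D H z * Real.exp (G z)) := by
      refine av_le fun z => ?_
      have h2 : (G z - A) + 1 ≤ Real.exp (G z - A) := Real.add_one_le_exp _
      have h3 : Real.exp (G z) = Real.exp A * Real.exp (G z - A) := by
        rw [← Real.exp_add]; congr 1; ring
      rw [h3]
      have h4 := mul_le_mul_of_nonneg_left h2
        (mul_nonneg (D_nonneg H z) (Real.exp_pos A).le)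
      nlinarith [h4]
    rw [av_add, av_mul_left, av_mul_left, av_D, ← hA] at h1
    linarith
  have hlog : A ≤ Real.log r := by
    have h1 : Real.exp A ≤ r := hlower.trans hupper
    have h2 := Real.log_le_log (Real.exp_pos A) h1
    rwa [Real.log_exp] at h2
  have : S ≤ 2 * Real.log r := by linarith
  exact this

/-- The level one inequality for a set. -/
theorem level_half (H : Finset κ) (φ : (κ → Bool) → ℝ) (hφ : ∀ z, φ z ^ 2 ≤ φ z) :
    ∑ b, (if b ∈ H then 0 else av (fun z => D H z * sg (z b) * φ z)) ^ 2 ≤
      av (fun z => D H z * φ z) / 2 := by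
  set a : κ → ℝ := fun b => if b ∈ H then 0 else av (fun z => D H z * sg (z b) * φ z) with ha
  set S : ℝ := ∑ b, a b ^ 2 with hS
  set L : (κ → Bool) → ℝ := fun z => ∑ b, a b * sg (z b) with hL
  have ha0 : ∀ b ∈ H, a b = 0 := fun b hb => by simp only [ha, if_pos hb]
  -- the correlation of `φ` and `L`
  have h1 : av (fun z => D H z * φ z * L z) = S := by
    have e1 : (fun z => D H z * φ z * L z) =
        fun z => ∑ b, a b * (D H z * sg (z b) * φ z) := by
      funext z
      simp only [hL]
      rw [Finset.mul_sum]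
      exact Finset.sum_congr rfl fun b _ => by ring
    rw [e1, av_sum, hS]
    refine Finset.sum_congr rfl fun b _ => ?_
    rw [av_mul_left]
    by_cases hb : b ∈ H
    · rw [ha0 b hb]; ring
    · have : a b = av (fun z => D H z * sg (z b) * φ z) := by simp only [ha, if_neg hb]
      rw [← this]; ring
  -- the square of `L`
  have h2 : av (fun z => D H z * L z ^ 2) = S := by
    have e1 : (fun z => D H z * L z ^ 2) =
        fun z => ∑ b, ∑ b', (a b * a b') * (D H z * (sg (z b) * sg (z b'))) := by
      funext z
      simp only [hL]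
      rw [pow_two, Finset.sum_mul_sum, Finset.mul_sum]
      refine Finset.sum_congr rfl fun b _ => ?_
      rw [Finset.mul_sum]
      exact Finset.sum_congr rfl fun b' _ => by ring
    rw [e1, av_sum, hS]
    refine Finset.sum_congr rfl fun b _ => ?_
    rw [av_sum, Finset.sum_eq_single b]
    · have e2 : (fun z : κ → Bool => (a b * a b) * (D H z * (sg (z b) * sg (z b)))) =
          fun z => (a b * a b) * D H z := by
        funext z
        have := sg_sq (z b)
        rw [← pow_two (sg (z b)), this, mul_one]
      rw [e2, av_mul_left, av_D]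
      ring
    · intro b' _ hb'
      by_cases hb : b ∈ H
      · rw [ha0 b hb]
        simp only [zero_mul]
        exact av_zero
      · rw [av_mul_left, av_D_sg_sg H b b' hb (Ne.symm hb'), mul_zero]
    · intro h
      exact absurd (Finset.mem_univ b) h
  -- the positive part
  set t : (κ → Bool) → κ → Bool := fun z b => if b ∈ H then z b else !z b with ht
  have htinv : Function.Involutive t := by
    intro z
    funext b
    simp only [ht]
    split_ifs <;> simp
  have htD : ∀ z, D H (t z) = D H z := by
    intro z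
    unfold D
    refine Finset.prod_congr rfl fun b _ => ?_
    unfold dw
    split_ifs with hb <;> simp_all
  have htL : ∀ z, L (t z) = - L z := by
    intro z
    simp only [hL]
    rw [← Finset.sum_neg_distrib]
    refine Finset.sum_congr rfl fun b _ => ?_
    by_cases hb : b ∈ H
    · rw [ha0 b hb]; ring
    · simp only [ht, if_neg hb, sg_not]; ring
  have h3 : av (fun z => D H z * (max (L z) 0) ^ 2) = S / 2 := by
    have e1 : av (fun z => D H z * (max (- L z) 0) ^ 2) =
        av (fun z => D H z * (max (L z) 0) ^ 2) := by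
      rw [← av_comp_invol t htinv (fun z => D H z * (max (L z) 0) ^ 2)]
      simp only [htD, htL]
    have e2 : av (fun z => D H z * (max (L z) 0) ^ 2) +
        av (fun z => D H z * (max (- L z) 0) ^ 2) = S := by
      rw [← h2, ← av_add]
      congr 1
      funext z
      rcases le_total (L z) 0 with h | h
      · rw [max_eq_right h, max_eq_left (by linarith)]; ring
      · rw [max_eq_left h, max_eq_right (by linarith)]; ring
    linarith
  have h4 : S ≤ av (fun z => D H z * φ z * (1 / 4) + D H z * (max (L z) 0) ^ 2) := by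
    rw [← h1]
    refine av_le fun z => ?_
    have hD := D_nonneg H z
    have hφz := hφ z
    have hφ0 : 0 ≤ φ z := (sq_nonneg _).trans hφz
    have e1 : φ z * L z ≤ φ z * max (L z) 0 := mul_le_mul_of_nonneg_left (le_max_left _ _) hφ0
    have e2 : φ z * max (L z) 0 ≤ φ z ^ 2 / 4 + (max (L z) 0) ^ 2 := by
      nlinarith [sq_nonneg (φ z / 2 - max (L z) 0)]
    have e3 : φ z * L z ≤ φ z * (1 / 4) + (max (L z) 0) ^ 2 := by linarith
    have e4 := mul_le_mul_of_nonneg_left e3 hD
    linarith [e4]
  rw [av_add, h3, av_mul_right] at h4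
  linarith

/-- Two players who see each other's stacks in full: the correlation of the signs. -/
theorem two_half (f f' : (κ → Bool) → κ) :
    av (fun z : κ → Bool => av (fun w : κ → Bool => sg (z (f w)) * sg (w (f' z)))) ≤ 1 / 2 := by
  set A : κ → κ → ℝ := fun b' b => av (fun z => sg (z b) * (if f' z = b' then 1 else 0)) with hA
  set B : κ → κ → ℝ := fun b b' => av (fun w => sg (w b') * (if f w = b then 1 else 0)) with hB
  have hD : ∀ z : κ → Bool, D ∅ z = 1 := by
    intro z
    unfold D
    exact Finset.prod_eq_one fun b _ => by simp [dw]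
  have key : ∀ (q : (κ → Bool) → κ),
      ∑ b', ∑ b, (av (fun z => sg (z b) * (if q z = b' then 1 else 0))) ^ 2 ≤ 1 / 2 := by
    intro q
    calc ∑ b', ∑ b, (av (fun z => sg (z b) * (if q z = b' then 1 else 0))) ^ 2
        ≤ ∑ b', av (fun z : κ → Bool => (if q z = b' then (1 : ℝ) else 0)) / 2 := by
          refine Finset.sum_le_sum fun b' _ => ?_
          have h := level_half ∅ (fun z => if q z = b' then (1 : ℝ) else 0)
            fun z => by split_ifs <;> norm_num
          simpa only [Finset.notMem_empty, if_false, hD, one_mul] using h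
      _ = 1 / 2 := by
          rw [← Finset.sum_div, ← av_sum]
          have : (fun z : κ → Bool => ∑ b', (if q z = b' then (1 : ℝ) else 0)) = fun _ => 1 := by
            funext z
            simp
          rw [this, av_const]
  have e1 : av (fun z : κ → Bool => av (fun w : κ → Bool => sg (z (f w)) * sg (w (f' z)))) =
      ∑ b, ∑ b', A b' b * B b b' := by
    have s1 : ∀ z w : κ → Bool, sg (z (f w)) * sg (w (f' z)) =
        ∑ b, ∑ b', (sg (z b) * (if f' z = b' then 1 else 0)) *
          (sg (w b') * (if f w = b then 1 else 0)) := by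
      intro z w
      rw [Finset.sum_eq_single (f w), Finset.sum_eq_single (f' z)]
      · simp
      · intro b' _ hb'
        simp [Ne.symm hb']
      · intro h; exact absurd (Finset.mem_univ _) h
      · intro b _ hb
        simp [Ne.symm hb]
      · intro h; exact absurd (Finset.mem_univ _) h
    simp_rw [s1]
    have s2 : ∀ z : κ → Bool, av (fun w : κ → Bool => ∑ b, ∑ b',
        (sg (z b) * (if f' z = b' then 1 else 0)) * (sg (w b') * (if f w = b then 1 else 0))) =
        ∑ b, ∑ b', (sg (z b) * (if f' z = b' then 1 else 0)) * B b b' := by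
      intro z
      rw [av_sum]
      refine Finset.sum_congr rfl fun b _ => ?_
      rw [av_sum]
      refine Finset.sum_congr rfl fun b' _ => ?_
      rw [av_mul_left]
    simp_rw [s2]
    rw [av_sum]
    refine Finset.sum_congr rfl fun b _ => ?_
    rw [av_sum]
    refine Finset.sum_congr rfl fun b' _ => ?_
    rw [av_mul_right]
  rw [e1]
  have hA2 : ∑ b, ∑ b', A b' b ^ 2 ≤ 1 / 2 := by
    rw [Finset.sum_comm]; exact key f'
  have hB2 : ∑ b, ∑ b', B b b' ^ 2 ≤ 1 / 2 := key f
  have hAB : ∑ b, ∑ b', A b' b * B b b' ≤ ∑ b, ∑ b', (A b' b ^ 2 + B b b' ^ 2) / 2 :=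
    Finset.sum_le_sum fun b _ => Finset.sum_le_sum fun b' _ => by
      nlinarith [sq_nonneg (A b' b - B b b')]
  have hsum : ∑ b, ∑ b', (A b' b ^ 2 + B b b' ^ 2) / 2 =
      (∑ b, ∑ b', A b' b ^ 2 + ∑ b, ∑ b', B b b' ^ 2) / 2 := by
    simp_rw [← Finset.sum_div, Finset.sum_add_distrib]
  linarith

end Pool.Agent.PS
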